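import Pool.Agent.Helper92.TD.Td

/-!
# Project TD (MP_fb29e9_nt): the exponent 301/482 + ε = 0.62448...

The octant sums are bounded trivially for `K ≤ R^(60/241)`, by two-dimensional differencing (`td`) for `R^(60/241) ≤ K ≤ R^(64/241)`, and by
the Gaussian sixth moment (`oct_bound0`, helper64) for `K ≥ R^(64/241)`.
-/

open MeasureTheory Real Set Filter Topology

set_option autoImplicit false

namespace Pool.Agent.Helper92.TD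

open Pool.Agent.Helper92.GC
open Pool.Agent.Helper22.AE
open Pool.Agent.Helper92.CX (OctB asm oct_triv)

/-- range (A) -/
private lemma rA {ε X K : ℝ} (hε : 0 < ε) (hX : 1 ≤ X) (hK1 : 1 ≤ K) (hK : K ≤ X ^ (60 / 241 : ℝ)) :
    25 * K ^ 2 ≤ 25 * X ^ (301 / 482 - 1 / 2 + ε) * K ^ (3 / 2 : ℝ) := by
  have hX0 : 0 < X := by linarith
  have hK0 : 0 < K := by linarith
  obtain ⟨x, rfl⟩ : ∃ x, X = exp x := ⟨log X, (exp_log hX0).symm⟩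
  obtain ⟨k, rfl⟩ : ∃ k, K = exp k := ⟨log K, (exp_log hK0).symm⟩
  have hx : 0 ≤ x := one_le_exp_iff.1 hX
  have hk : 0 ≤ k := one_le_exp_iff.1 hK1
  rw [← exp_mul, exp_le_exp] at hK
  have hp : 0 ≤ ε * x := mul_nonneg hε.le hx
  have e : exp k ^ 2 = exp (2 * k) := by
    rw [← exp_nat_mul]
    norm_num
  rw [e, ← exp_mul, ← exp_mul, mul_assoc, ← exp_add]
  refine mul_le_mul_of_nonneg_left (exp_le_exp.2 ?_) (by norm_num)
  nlinarith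

/-- range (B), first term -/
private lemma rB1 {ε X K : ℝ} (hε : 0 < ε) (hX : 1 ≤ X) (hK1 : 1 ≤ K) (hK : K ≤ X ^ (64 / 241 : ℝ)) :
    K ^ 2 * (X / K ^ 5) ^ (1 / 32 : ℝ) ≤ X ^ (301 / 482 - 1 / 2 + ε) * K ^ (3 / 2 : ℝ) := by
  have hX0 : 0 < X := by linarith
  have hK0 : 0 < K := by linarith
  obtain ⟨x, rfl⟩ : ∃ x, X = exp x := ⟨log X, (exp_log hX0).symm⟩
  obtain ⟨k, rfl⟩ : ∃ k, K = exp k := ⟨log K, (exp_log hK0).symm⟩
  have hx : 0 ≤ x := one_le_exp_iff.1 hX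
  have hk : 0 ≤ k := one_le_exp_iff.1 hK1
  rw [← exp_mul, exp_le_exp] at hK
  have hp : 0 ≤ ε * x := mul_nonneg hε.le hx
  have e : exp k ^ 2 = exp (2 * k) := by
    rw [← exp_nat_mul]
    norm_num
  have e5 : exp x / exp k ^ 5 = exp (x - 5 * k) := by
    rw [exp_sub, ← exp_nat_mul]
    norm_num
  rw [e, e5, ← exp_mul, ← exp_mul, ← exp_mul, ← exp_add, ← exp_add]
  refine exp_le_exp.2 ?_
  nlinarith

/-- range (B), second term -/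
private lemma rB2 {ε X K : ℝ} (hε : 0 < ε) (hX : 1 ≤ X) (hK1 : 1 ≤ K) (hK : K ≤ X ^ (64 / 241 : ℝ)) :
    K ^ 2 * ((1 + log K) / K) ^ (1 / 32 : ℝ) ≤ (1 + 1 / ε) * (X ^ (301 / 482 - 1 / 2 + ε) * K ^ (3 / 2 : ℝ)) := by
  have hX0 : 0 < X := by linarith
  have hK0 : 0 < K := by linarith
  have hlog : 0 ≤ log K := log_nonneg hK1
  have hKX : K ≤ X := hK.trans (by
    calc X ^ (64 / 241 : ℝ) ≤ X ^ (1 : ℝ) := rpow_le_rpow_of_exponent_le hX (by norm_num)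
      _ = X := rpow_one _)
  have h1 : (1 + log K) ^ (1 / 32 : ℝ) ≤ (1 + 1 / ε) * X ^ ε := by
    have h2 : (1 + log K) ^ (1 / 32 : ℝ) ≤ (1 + log K) ^ (1 : ℝ) :=
      rpow_le_rpow_of_exponent_le (by linarith) (by norm_num)
    rw [rpow_one] at h2
    have h3 : log K ≤ K ^ ε / ε := log_le_rpow_div hK0.le hε
    have h4 : K ^ ε ≤ X ^ ε := rpow_le_rpow hK0.le hKX hε.le
    have h5 : 1 ≤ X ^ ε := one_le_rpow hX hε.le
    calc (1 + log K) ^ (1 / 32 : ℝ) ≤ 1 + log K := h2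
      _ ≤ X ^ ε + X ^ ε / ε := by
        refine add_le_add h5 (h3.trans ?_)
        gcongr
      _ = _ := by ring
  have h6 : K ^ 2 * (1 / K) ^ (1 / 32 : ℝ) ≤ X ^ (301 / 482 - 1 / 2 : ℝ) * K ^ (3 / 2 : ℝ) := by
    clear h1 hlog hKX
    obtain ⟨x, rfl⟩ : ∃ x, X = exp x := ⟨log X, (exp_log hX0).symm⟩
    obtain ⟨k, rfl⟩ : ∃ k, K = exp k := ⟨log K, (exp_log hK0).symm⟩
    have hx : 0 ≤ x := one_le_exp_iff.1 hX
    have hk : 0 ≤ k := one_le_exp_iff.1 hK1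
    rw [← exp_mul, exp_le_exp] at hK
    have e : exp k ^ 2 = exp (2 * k) := by
      rw [← exp_nat_mul]
      norm_num
    have e1 : 1 / exp k = exp (-k) := by
      rw [exp_neg, one_div]
    rw [e, e1, ← exp_mul, ← exp_mul, ← exp_mul, ← exp_add, ← exp_add]
    refine exp_le_exp.2 ?_
    nlinarith
  have h7 : ((1 + log K) / K) ^ (1 / 32 : ℝ) = (1 + log K) ^ (1 / 32 : ℝ) * (1 / K) ^ (1 / 32 : ℝ) := by
    rw [← mul_rpow (by linarith) (by positivity)]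
    congr 1
    ring
  have h8 : X ^ (301 / 482 - 1 / 2 + ε) = X ^ (301 / 482 - 1 / 2 : ℝ) * X ^ ε := rpow_add hX0 _ _
  rw [h7, h8]
  calc K ^ 2 * ((1 + log K) ^ (1 / 32 : ℝ) * (1 / K) ^ (1 / 32 : ℝ)) = (1 + log K) ^ (1 / 32 : ℝ) * (K ^ 2 * (1 / K) ^ (1 / 32 : ℝ)) := by ring
    _ ≤ ((1 + 1 / ε) * X ^ ε) * (X ^ (301 / 482 - 1 / 2 : ℝ) * K ^ (3 / 2 : ℝ)) := by gcongr
    _ = _ := by ring

/-- range (B) -/
private lemma rB {ε X R K : ℝ} (hε : 0 < ε) (hX : 1 ≤ X) (hR0 : 0 < R) (hR : R ≤ 4 * X) (hK1 : 1 ≤ K)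
    (hK : K ≤ X ^ (64 / 241 : ℝ)) :
    K ^ 2 * (R / K ^ 5 + (1 + log K) / K) ^ (1 / 32 : ℝ) ≤
      (8 + 8 / ε) * (X ^ (301 / 482 - 1 / 2 + ε) * K ^ (3 / 2 : ℝ)) := by
  have hX0 : 0 < X := by linarith
  have hK0 : 0 < K := by linarith
  have hlog : 0 ≤ log K := log_nonneg hK1
  set W : ℝ := X ^ (301 / 482 - 1 / 2 + ε) * K ^ (3 / 2 : ℝ) with hW
  have hW0 : 0 ≤ W := by positivity
  have h8 : (8 : ℝ) ^ (1 / 32 : ℝ) ≤ 8 := by
    calc (8 : ℝ) ^ (1 / 32 : ℝ) ≤ 8 ^ (1 : ℝ) := rpow_le_rpow_of_exponent_le (by norm_num) (by norm_num)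
      _ = 8 := rpow_one _
  have h2 : (2 : ℝ) ^ (1 / 32 : ℝ) ≤ 8 := by
    calc (2 : ℝ) ^ (1 / 32 : ℝ) ≤ 2 ^ (1 : ℝ) := rpow_le_rpow_of_exponent_le (by norm_num) (by norm_num)
      _ ≤ 8 := by norm_num
  have hε' : 0 ≤ 8 / ε := by positivity
  rcases le_total ((1 + log K) / K) (R / K ^ 5) with h | h
  · have h1 : R / K ^ 5 + (1 + log K) / K ≤ 8 * (X / K ^ 5) := by
      have : R / K ^ 5 ≤ 4 * X / K ^ 5 := by gcongr
      have e : 4 * X / K ^ 5 = 4 * (X / K ^ 5) := by ring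
      linarith
    have h3 : (R / K ^ 5 + (1 + log K) / K) ^ (1 / 32 : ℝ) ≤ 8 * (X / K ^ 5) ^ (1 / 32 : ℝ) := by
      calc _ ≤ (8 * (X / K ^ 5)) ^ (1 / 32 : ℝ) := rpow_le_rpow (by positivity) h1 (by norm_num)
        _ = 8 ^ (1 / 32 : ℝ) * (X / K ^ 5) ^ (1 / 32 : ℝ) := mul_rpow (by norm_num) (by positivity)
        _ ≤ _ := mul_le_mul_of_nonneg_right h8 (by positivity)
    calc K ^ 2 * (R / K ^ 5 + (1 + log K) / K) ^ (1 / 32 : ℝ) ≤ K ^ 2 * (8 * (X / K ^ 5) ^ (1 / 32 : ℝ)) := by gcongr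
      _ = 8 * (K ^ 2 * (X / K ^ 5) ^ (1 / 32 : ℝ)) := by ring
      _ ≤ 8 * W := mul_le_mul_of_nonneg_left (rB1 hε hX hK1 hK) (by norm_num)
      _ ≤ _ := by nlinarith
  · have h1 : R / K ^ 5 + (1 + log K) / K ≤ 2 * ((1 + log K) / K) := by linarith
    have h3 : (R / K ^ 5 + (1 + log K) / K) ^ (1 / 32 : ℝ) ≤ 8 * ((1 + log K) / K) ^ (1 / 32 : ℝ) := by
      calc _ ≤ (2 * ((1 + log K) / K)) ^ (1 / 32 : ℝ) := rpow_le_rpow (by positivity) h1 (by norm_num)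
        _ = 2 ^ (1 / 32 : ℝ) * ((1 + log K) / K) ^ (1 / 32 : ℝ) := mul_rpow (by norm_num) (by positivity)
        _ ≤ _ := mul_le_mul_of_nonneg_right h2 (by positivity)
    calc K ^ 2 * (R / K ^ 5 + (1 + log K) / K) ^ (1 / 32 : ℝ) ≤ K ^ 2 * (8 * ((1 + log K) / K) ^ (1 / 32 : ℝ)) := by gcongr
      _ = 8 * (K ^ 2 * ((1 + log K) / K) ^ (1 / 32 : ℝ)) := by ring
      _ ≤ 8 * ((1 + 1 / ε) * W) := mul_le_mul_of_nonneg_left (rB2 hε hX hK1 hK) (by norm_num)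
      _ = _ := by ring

/-- range (C) -/
private lemma rC {ε e C X K : ℝ} (hC : 0 < C) (heε : e ≤ ε) (hX : 1 ≤ X) (hK1 : 1 ≤ K)
    (hK : X ^ (64 / 241 : ℝ) ≤ K) :
    C * X ^ e * K ^ (4 / 3 : ℝ) * (X * K) ^ (2 / 15 : ℝ) ≤ C * X ^ (301 / 482 - 1 / 2 + ε) * K ^ (3 / 2 : ℝ) := by
  have hX0 : 0 < X := by linarith
  have hK0 : 0 < K := by linarith
  obtain ⟨x, rfl⟩ : ∃ x, X = exp x := ⟨log X, (exp_log hX0).symm⟩
  obtain ⟨k, rfl⟩ : ∃ k, K = exp k := ⟨log K, (exp_log hK0).symm⟩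
  have hx : 0 ≤ x := one_le_exp_iff.1 hX
  have hk : 0 ≤ k := one_le_exp_iff.1 hK1
  rw [← exp_mul, exp_le_exp] at hK
  have hp : e * x ≤ ε * x := mul_le_mul_of_nonneg_right heε hx
  rw [← exp_add]
  simp only [← exp_mul]
  rw [mul_assoc, mul_assoc, mul_assoc, ← exp_add, ← exp_add, ← exp_add]
  refine mul_le_mul_of_nonneg_left (exp_le_exp.2 ?_) hC.le
  nlinarith

private lemma large : ∃ X₁ : ℝ, 1 ≤ X₁ ∧ ∀ X R K : ℝ, X₁ ≤ X → X / 4 ≤ R → R ≤ 4 * X → 1 ≤ K → X ^ (60 / 241 : ℝ) ≤ K →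
    K ≤ X ^ (64 / 241 : ℝ) → K ^ 3 ≤ R ∧ R ≤ K ^ 5 := by
  have ht1 := (tendsto_rpow_atTop (show (0 : ℝ) < 59 / 241 by norm_num)).eventually_ge_atTop 4
  have ht2 := (tendsto_rpow_atTop (show (0 : ℝ) < 49 / 241 by norm_num)).eventually_ge_atTop 4
  obtain ⟨A, hA⟩ := (ht1.and ht2).exists_forall_of_atTop
  refine ⟨max A 1, le_max_right _ _, ?_⟩
  intro X R K hX hR hR4 hK1 hKl hKu
  have hX1 : 1 ≤ X := (le_max_right _ _).trans hX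
  have hX0 : 0 < X := by linarith
  have hK0 : 0 < K := by linarith
  obtain ⟨h1, h2⟩ := hA X ((le_max_left _ _).trans hX)
  constructor
  · have h3 : K ^ 3 ≤ (X ^ (64 / 241 : ℝ)) ^ 3 := pow_le_pow_left₀ hK0.le hKu 3
    have h4 : (X ^ (64 / 241 : ℝ)) ^ 3 * X ^ (49 / 241 : ℝ) = X := by
      nth_rewrite 3 [← rpow_one X]
      rw [← rpow_natCast, ← rpow_mul hX0.le, ← rpow_add hX0]
      norm_num
    have h5 : (X ^ (64 / 241 : ℝ)) ^ 3 * 4 ≤ X := by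
      nth_rewrite 2 [← h4]
      exact mul_le_mul_of_nonneg_left h2 (by positivity)
    linarith
  · have h3 : (X ^ (60 / 241 : ℝ)) ^ 5 ≤ K ^ 5 := pow_le_pow_left₀ (by positivity) hKl 5
    have h4 : (X ^ (60 / 241 : ℝ)) ^ 5 = X ^ (59 / 241 : ℝ) * X := by
      rw [← rpow_natCast, ← rpow_mul hX0.le]
      nth_rewrite 3 [← rpow_one X]
      rw [← rpow_add hX0]
      norm_num
    have h5 : 4 * X ≤ X ^ (59 / 241 : ℝ) * X := mul_le_mul_of_nonneg_right h1 hX0.le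
    linarith

/-- **the octant bound for the exponent 301/482** -/
theorem octB : OctB (301 / 482) (1 / 1000) := by
  intro ε hε
  obtain ⟨e, he, heε, he1⟩ : ∃ e : ℝ, 0 < e ∧ e ≤ ε ∧ e ≤ 1 / 1000 :=
    ⟨min ε (1 / 1000), lt_min hε (by norm_num), min_le_left _ _, min_le_right _ _⟩
  obtain ⟨C1, hC1, h6⟩ := td
  obtain ⟨C2, hC2, h0⟩ := Pool.Agent.Helper64.GS.oct_bound0 he he1
  obtain ⟨X1, hX1, hlarge⟩ := large
  refine ⟨25 * X1 ^ 2 + 25 + C1 * (8 + 8 / ε) + C2, by positivity, ?_⟩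
  intro R₀ R K hR₀ hR hR4 hK hKu i hi c
  have hX0 : 0 < R₀ := by linarith
  have hR0 : 0 < R := by linarith
  have hK1 : (1 : ℝ) ≤ K := by exact_mod_cast hK
  have hK0 : (0 : ℝ) < K := by linarith
  set W : ℝ := R₀ ^ (301 / 482 - 1 / 2 + ε) * (K : ℝ) ^ (3 / 2 : ℝ) with hW
  have hW0 : 0 < W := by positivity
  have hgoal : ‖bs (oct K) K i R c‖ ≤ (25 * X1 ^ 2 + 25 + C1 * (8 + 8 / ε) + C2) * W → ‖bs (oct K) K i R c‖ ≤
      (25 * X1 ^ 2 + 25 + C1 * (8 + 8 / ε) + C2) * R₀ ^ (301 / 482 - 1 / 2 + ε) * (K : ℝ) ^ (3 / 2 : ℝ) := by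
    intro h
    rw [mul_assoc]
    exact h
  apply hgoal
  have hp0 : 0 ≤ 25 * X1 ^ 2 * W := by positivity
  have hp1 : 0 ≤ 25 * W := by positivity
  have hp2 : 0 ≤ C1 * (8 + 8 / ε) * W := by positivity
  have hp3 : 0 ≤ C2 * W := by positivity
  have hsplit : (25 * X1 ^ 2 + 25 + C1 * (8 + 8 / ε) + C2) * W = 25 * X1 ^ 2 * W + 25 * W + C1 * (8 + 8 / ε) * W + C2 * W := by ring
  rw [hsplit]
  rcases le_total (K : ℝ) (R₀ ^ (60 / 241 : ℝ)) with hA | hA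
  · have h1 := (oct_triv (i := i) (R := R) hK c).trans (rA hε hR₀ hK1 hA)
    have h2 : 25 * R₀ ^ (301 / 482 - 1 / 2 + ε) * (K : ℝ) ^ (3 / 2 : ℝ) = 25 * W := by rw [hW]; ring
    rw [h2] at h1
    linarith
  rcases le_total (R₀ ^ (64 / 241 : ℝ)) (K : ℝ) with hB | hB
  · have hl : R₀ ^ (1 / 4 + e) ≤ (K : ℝ) :=
      (rpow_le_rpow_of_exponent_le hR₀ (by linarith)).trans hB
    have hu : (K : ℝ) ≤ R₀ ^ (7 / 18 - e) :=
      hKu.trans (rpow_le_rpow_of_exponent_le hR₀ (by linarith))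
    have h1 := h0 R₀ R K hR₀ hR hR4 hl hu i hi c
    rw [rpow_zero, mul_one] at h1
    have h2 := h1.trans (rC hC2 heε hR₀ hK1 hB)
    have h3 : C2 * R₀ ^ (301 / 482 - 1 / 2 + ε) * (K : ℝ) ^ (3 / 2 : ℝ) = C2 * W := by rw [hW]; ring
    rw [h3] at h2
    linarith
  rcases le_total R₀ X1 with hs | hs
  · have h1 := oct_triv (i := i) (R := R) hK c
    have h2 : (K : ℝ) ≤ X1 := by
      refine hB.trans (le_trans ?_ hs)
      calc R₀ ^ (64 / 241 : ℝ) ≤ R₀ ^ (1 : ℝ) := rpow_le_rpow_of_exponent_le hR₀ (by norm_num)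
        _ = R₀ := rpow_one _
    have h3 : (K : ℝ) ^ 2 ≤ X1 ^ 2 := pow_le_pow_left₀ hK0.le h2 2
    have h4 : 1 ≤ W := by
      rw [hW]
      have a1 : 1 ≤ R₀ ^ (301 / 482 - 1 / 2 + ε) := one_le_rpow hR₀ (by linarith)
      have a2 : 1 ≤ (K : ℝ) ^ (3 / 2 : ℝ) := one_le_rpow hK1 (by norm_num)
      nlinarith
    have h5 : 25 * X1 ^ 2 * 1 ≤ 25 * X1 ^ 2 * W := mul_le_mul_of_nonneg_left h4 (by positivity)
    linarith
  · obtain ⟨a1, a2⟩ := hlarge R₀ R K hs hR hR4 hK1 hA hB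
    have h1 := h6 K R hK a1 a2 i (by rcases hi with rfl | rfl <;> norm_num) c
    have h2 := h1.trans (mul_le_mul_of_nonneg_left (rB hε hR₀ hR0 hR4 hK1 hB) hC1.le)
    have h3 : C1 * ((8 + 8 / ε) * W) = C1 * (8 + 8 / ε) * W := by ring
    rw [h3] at h2
    linarith

/-- **The circle problem with the exponent `301/482 + ε`**, for all radii and all centres. -/
theorem main {ε : ℝ} (hε : 0 < ε) : ∃ C : ℝ, ∀ R : ℝ, 1 ≤ R → ∀ c : ℝ × ℝ,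
    |dcnt c R - π * R ^ 2| ≤ C * R ^ (301 / 482 + ε) :=
  asm (by norm_num) (by norm_num) (by norm_num) octB hε

end Pool.Agent.Helper92.TD
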