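import Mathlib

/-!
# Project TD (MP_fb29e9_nt): directional derivatives of the absolute value

`Dv a b us p` is the derivative of `|p| p^(-a) conj(p)^(-b)` in the directions `us`. `mv`: finite differences are close to derivatives.
`up`: upper bounds. `low5`: the lower bound `‖Dv 1 0 [w₁, w₂, w₃, w₄, v]‖ ≥ c |w₁| |w₂| |w₃| |w₄| |v| / |q|^5` if `v` is transversal to `q`.
-/

set_option autoImplicit false

namespace Pool.Agent.Helper92.TD

open scoped ComplexConjugate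

/-- `|p| p^(-a) conj(p)^(-b)` -/
noncomputable def T (a b : ℕ) (p : ℂ) : ℂ := (‖p‖ : ℂ) * (p⁻¹) ^ a * ((conj p)⁻¹) ^ b

/-- iterated directional derivatives -/
noncomputable def Dv : ℕ → ℕ → List ℂ → ℂ → ℂ
  | a, b, [], p => T a b p
  | a, b, u :: us, p => (1 / 2 - a) * u * Dv (a + 1) b us p + (1 / 2 - b) * conj u * Dv a (b + 1) us p

/-- iterated differences -/
def Df : List ℂ → (ℂ → ℂ) → ℂ → ℂ
  | [], F, p => F p
  | u :: us, F, p => Df us F (p + u) - Df us F p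

/-- the product of the absolute values -/
noncomputable def pr (us : List ℂ) : ℝ := (us.map (fun u => ‖u‖)).prod

/-- the sum of the absolute values -/
noncomputable def sn (us : List ℂ) : ℝ := (us.map (fun u => ‖u‖)).sum

lemma pr_nonneg (us : List ℂ) : 0 ≤ pr us := by
  unfold pr
  refine List.prod_nonneg ?_
  intro x hx
  obtain ⟨u, _, rfl⟩ := List.mem_map.1 hx
  exact norm_nonneg _

lemma sn_nonneg (us : List ℂ) : 0 ≤ sn us := by
  unfold sn
  refine List.sum_nonneg ?_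
  intro x hx
  obtain ⟨u, _, rfl⟩ := List.mem_map.1 hx
  exact norm_nonneg _

@[simp] lemma pr_cons (u : ℂ) (us : List ℂ) : pr (u :: us) = ‖u‖ * pr us := by simp [pr]
@[simp] lemma pr_nil : pr [] = 1 := by simp [pr]
@[simp] lemma sn_cons (u : ℂ) (us : List ℂ) : sn (u :: us) = ‖u‖ + sn us := by simp [sn]
@[simp] lemma sn_nil : sn [] = 0 := by simp [sn]
lemma pr_append (us vs : List ℂ) : pr (us ++ vs) = pr us * pr vs := by simp [pr]

private lemma norm_deriv92 {p w : ℂ} (hp : p ≠ 0) :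
    HasDerivAt (fun t : ℝ => ((‖p + t * w‖ : ℝ) : ℂ)) ((‖p‖ : ℂ) * (1 / 2 * (w * p⁻¹ + conj w * (conj p)⁻¹))) 0 := by
  have h1 : HasDerivAt (fun t : ℝ => Complex.normSq (p + t * w)) (2 * (p.re * w.re + p.im * w.im)) 0 := by
    have e : (fun t : ℝ => Complex.normSq (p + t * w)) = fun t : ℝ => (p.re + t * w.re) * (p.re + t * w.re) +
        (p.im + t * w.im) * (p.im + t * w.im) := by
      funext t
      rw [Complex.normSq_apply]
      simp
    rw [e]
    have a1 : HasDerivAt (fun t : ℝ => p.re + t * w.re) w.re 0 := by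
      simpa using ((hasDerivAt_id (0 : ℝ)).mul_const w.re).const_add p.re
    have a2 : HasDerivAt (fun t : ℝ => p.im + t * w.im) w.im 0 := by
      simpa using ((hasDerivAt_id (0 : ℝ)).mul_const w.im).const_add p.im
    refine ((a1.mul a1).add (a2.mul a2)).congr_deriv ?_
    simp
    ring
  have h2 : Complex.normSq (p + ((0 : ℝ) : ℂ) * w) ≠ 0 := by
    simp [hp]
  have h3 := h1.sqrt h2
  have h4 := h3.ofReal_comp
  have e1 : (fun t : ℝ => ((‖p + t * w‖ : ℝ) : ℂ)) = fun t : ℝ => ((√(Complex.normSq (p + t * w)) : ℝ) : ℂ) := by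
    funext t
    rfl
  rw [e1]
  refine h4.congr_deriv ?_
  have h5 : √(Complex.normSq (p + ((0 : ℝ) : ℂ) * w)) = ‖p‖ := by
    rw [Complex.ofReal_zero, zero_mul, add_zero]
    rfl
  rw [h5]
  have hn : (‖p‖ : ℂ) ≠ 0 := by
    simp [hp]
  have hc : conj p ≠ 0 := by simpa using hp
  have h6 : (‖p‖ : ℂ) ^ 2 = p * conj p := (Complex.mul_conj' p).symm
  have h7 : ((p.re * w.re + p.im * w.im : ℝ) : ℂ) = 1 / 2 * (w * conj p + conj w * p) := by
    apply Complex.ext
    · simp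
      ring
    · simp
      ring
  have h8 : (((2 * (p.re * w.re + p.im * w.im)) / (2 * ‖p‖) : ℝ) : ℂ) = ((p.re * w.re + p.im * w.im : ℝ) : ℂ) / (‖p‖ : ℂ) := by
    rw [mul_div_mul_left _ _ (by norm_num : (2 : ℝ) ≠ 0)]
    push_cast
    ring
  rw [h8, h7, div_eq_iff hn]
  have h9 : (‖p‖ : ℂ) * (1 / 2 * (w * p⁻¹ + conj w * (conj p)⁻¹)) * (‖p‖ : ℂ) =
      (‖p‖ : ℂ) ^ 2 * (1 / 2 * (w * p⁻¹ + conj w * (conj p)⁻¹)) := by ring
  rw [h9, h6]
  field_simp

private lemma inv_pow_deriv92 {p w : ℂ} (hp : p ≠ 0) (a : ℕ) :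
    HasDerivAt (fun t : ℝ => ((p + t * w)⁻¹) ^ a) (-(a : ℂ) * w * (p⁻¹) ^ (a + 1)) 0 := by
  have h0 : HasDerivAt (fun t : ℝ => p + t * w) w 0 := by
    have h1 : HasDerivAt (fun t : ℝ => (t : ℂ)) 1 0 := Complex.ofRealCLM.hasDerivAt
    simpa using (h1.mul_const w).const_add p
  have h1 : p + ((0 : ℝ) : ℂ) * w ≠ 0 := by simpa using hp
  have h2 := (h0.inv h1).pow a
  refine (h2.congr_deriv ?_)
  rcases a with _ | a
  · simp
  · simp only [Complex.ofReal_zero, zero_mul, add_zero, Nat.add_sub_cancel]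
    simp only [Pi.inv_apply, Complex.ofReal_zero, zero_mul, add_zero]
    rw [div_eq_mul_inv, ← inv_pow]
    ring

private lemma conj_inv_pow_deriv92 {p w : ℂ} (hp : p ≠ 0) (b : ℕ) :
    HasDerivAt (fun t : ℝ => ((conj (p + t * w))⁻¹) ^ b) (-(b : ℂ) * conj w * ((conj p)⁻¹) ^ (b + 1)) 0 := by
  have hc : conj p ≠ 0 := by simpa using hp
  have h := inv_pow_deriv92 (p := conj p) (w := conj w) hc b
  have e : (fun t : ℝ => ((conj (p + t * w))⁻¹) ^ b) = fun t : ℝ => ((conj p + t * conj w)⁻¹) ^ b := by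
    funext t
    rw [map_add, map_mul, Complex.conj_ofReal]
  rw [e]
  exact h

lemma T_deriv {p w : ℂ} (hp : p ≠ 0) (a b : ℕ) :
    HasDerivAt (fun t : ℝ => T a b (p + t * w)) (Dv a b [w] p) 0 := by
  have h := ((norm_deriv92 (w := w) hp).mul (inv_pow_deriv92 (w := w) hp a)).mul (conj_inv_pow_deriv92 (w := w) hp b)
  have hc : conj p ≠ 0 := by simpa using hp
  unfold T
  refine h.congr_deriv ?_
  simp only [Dv, T, Pi.mul_apply, Complex.ofReal_zero, zero_mul, add_zero]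
  ring

lemma Dv_deriv (us : List ℂ) : ∀ (a b : ℕ) {p w : ℂ}, p ≠ 0 →
    HasDerivAt (fun t : ℝ => Dv a b us (p + t * w)) (Dv a b (us ++ [w]) p) 0 := by
  induction us with
  | nil =>
    intro a b p w hp
    exact T_deriv hp a b
  | cons u us ih =>
    intro a b p w hp
    simp only [List.cons_append, Dv]
    exact ((ih (a + 1) b hp).const_mul _).add ((ih a (b + 1) hp).const_mul _)

lemma Df_deriv (us : List ℂ) : ∀ {F F' : ℂ → ℂ} {p w : ℂ},
    (∀ q, ‖q - p‖ ≤ sn us → HasDerivAt (fun t : ℝ => F (q + t * w)) (F' q) 0) →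
    HasDerivAt (fun t : ℝ => Df us F (p + t * w)) (Df us F' p) 0 := by
  induction us with
  | nil =>
    intro F F' p w h
    exact h p (by simp)
  | cons u us ih =>
    intro F F' p w h
    simp only [Df]
    have h1 := ih (F := F) (F' := F') (p := p + u) (w := w) (fun q hq => h q (by
      rw [sn_cons]
      calc ‖q - p‖ = ‖(q - (p + u)) + u‖ := by ring_nf
        _ ≤ ‖q - (p + u)‖ + ‖u‖ := norm_add_le _ _
        _ ≤ _ := by linarith))
    have h2 := ih (F := F) (F' := F') (p := p) (w := w) (fun q hq => h q (by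
      rw [sn_cons]
      have := norm_nonneg u
      linarith))
    have e : (fun t : ℝ => Df us F (p + t * w + u) - Df us F (p + t * w)) =
        fun t : ℝ => Df us F (p + u + t * w) - Df us F (p + t * w) := by
      funext t
      congr 2
      ring
    rw [e]
    exact h1.sub h2

/-- **differences are close to derivatives** -/
theorem mv (us : List ℂ) : ∀ {a b : ℕ} {vs : List ℂ} {p L : ℂ} {ε : ℝ},
    (∀ q, ‖q - p‖ ≤ sn us → q ≠ 0) → (∀ q, ‖q - p‖ ≤ sn us → ‖Dv a b (vs ++ us) q - L‖ ≤ ε) →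
    ‖Df us (Dv a b vs) p - L‖ ≤ ε := by
  induction us with
  | nil =>
    intro a b vs p L ε _ h
    have := h p (by simp)
    rwa [List.append_nil] at this
  | cons u us ih =>
    intro a b vs p L ε hne h
    -- the points of the segment
    have hseg : ∀ t : ℝ, 0 ≤ t → t ≤ 1 → ∀ q, ‖q - (p + t * u)‖ ≤ sn us → ‖q - p‖ ≤ sn (u :: us) := by
      intro t h0 h1 q hq
      rw [sn_cons]
      calc ‖q - p‖ = ‖(q - (p + t * u)) + t * u‖ := by ring_nf
        _ ≤ ‖q - (p + t * u)‖ + ‖(t : ℂ) * u‖ := norm_add_le _ _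
        _ ≤ sn us + 1 * ‖u‖ := by
          rw [norm_mul, Complex.norm_real, Real.norm_of_nonneg h0]
          gcongr
        _ = _ := by ring
    have hder : ∀ t : ℝ, t ∈ Set.Icc (0 : ℝ) 1 →
        HasDerivAt (fun t : ℝ => Df us (Dv a b vs) (p + t * u) - t * L) (Df us (Dv a b (vs ++ [u])) (p + t * u) - L) t := by
      intro t ht
      have h1 := Df_deriv us (F := Dv a b vs) (F' := Dv a b (vs ++ [u])) (p := p + t * u) (w := u) (fun q hq =>
        Dv_deriv vs a b (hne q (hseg t ht.1 ht.2 q hq)))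
      have h2 : HasDerivAt (fun s : ℝ => Df us (Dv a b vs) (p + t * u + ((s - t : ℝ) : ℂ) * u))
          (Df us (Dv a b (vs ++ [u])) (p + t * u)) t := by
        have h3 : HasDerivAt (fun s : ℝ => Df us (Dv a b vs) (p + t * u + (s : ℂ) * u))
          (Df us (Dv a b (vs ++ [u])) (p + t * u)) (t - t) := by
          rw [sub_self]
          exact h1
        exact HasDerivAt.comp_sub_const t t h3
      have e : (fun s : ℝ => Df us (Dv a b vs) (p + t * u + ((s - t : ℝ) : ℂ) * u)) =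
          fun s : ℝ => Df us (Dv a b vs) (p + s * u) := by
        funext s
        congr 1
        push_cast
        ring
      rw [e] at h2
      have h4 : HasDerivAt (fun s : ℝ => (s : ℂ) * L) L t := by
        have h5 : HasDerivAt (fun t : ℝ => (t : ℂ)) 1 t := Complex.ofRealCLM.hasDerivAt
        simpa using h5.mul_const L
      exact h2.sub h4
    have hb : ∀ t : ℝ, t ∈ Set.Icc (0 : ℝ) 1 → ‖Df us (Dv a b (vs ++ [u])) (p + t * u) - L‖ ≤ ε := by
      intro t ht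
      refine ih (fun q hq => hne q (hseg t ht.1 ht.2 q hq)) (fun q hq => ?_)
      have := h q (hseg t ht.1 ht.2 q hq)
      rwa [List.append_assoc, List.singleton_append]
    have hfin := norm_image_sub_le_of_norm_deriv_le_segment_01' (f := fun t : ℝ => Df us (Dv a b vs) (p + t * u) - t * L)
      (fun t ht => (hder t ht).hasDerivWithinAt) (fun t ht => hb t ⟨ht.1, ht.2.le⟩)
    have e : Df (u :: us) (Dv a b vs) p - L = (Df us (Dv a b vs) (p + ((1 : ℝ) : ℂ) * u) - ((1 : ℝ) : ℂ) * L) -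
        (Df us (Dv a b vs) (p + ((0 : ℝ) : ℂ) * u) - ((0 : ℝ) : ℂ) * L) := by
      simp only [Df, Complex.ofReal_one, Complex.ofReal_zero, one_mul, zero_mul, add_zero, sub_zero]
      ring
    rw [e]
    exact hfin

lemma norm_T {a b : ℕ} {q : ℂ} : ‖T a b q‖ = ‖q‖ * (‖q‖⁻¹) ^ (a + b) := by
  unfold T
  rw [norm_mul, norm_mul, norm_pow, norm_pow, norm_inv, norm_inv, RCLike.norm_conj, Complex.norm_real, norm_norm, pow_add]
  ring

private lemma norm_half92 (a : ℕ) : ‖(1 / 2 - a : ℂ)‖ = |1 / 2 - (a : ℝ)| := by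
  have : (1 / 2 - a : ℂ) = ((1 / 2 - (a : ℝ) : ℝ) : ℂ) := by push_cast; ring
  rw [this, Complex.norm_real, Real.norm_eq_abs]

/-- one step upwards -/
private lemma step_up92 {a b : ℕ} {u : ℂ} {us : List ℂ} {q : ℂ} {B c : ℝ} (hB : 0 ≤ B)
    (h1 : ‖Dv (a + 1) b us q‖ ≤ B) (h2 : ‖Dv a (b + 1) us q‖ ≤ B) (hc : |1 / 2 - (a : ℝ)| + |1 / 2 - (b : ℝ)| ≤ c) :
    ‖Dv a b (u :: us) q‖ ≤ c * ‖u‖ * B := by
  simp only [Dv]
  refine (norm_add_le _ _).trans ?_
  rw [norm_mul, norm_mul, norm_mul, norm_mul, RCLike.norm_conj, norm_half92, norm_half92]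
  calc |1 / 2 - (a : ℝ)| * ‖u‖ * ‖Dv (a + 1) b us q‖ + |1 / 2 - (b : ℝ)| * ‖u‖ * ‖Dv a (b + 1) us q‖
      ≤ |1 / 2 - (a : ℝ)| * ‖u‖ * B + |1 / 2 - (b : ℝ)| * ‖u‖ * B := by gcongr
    _ = (|1 / 2 - (a : ℝ)| + |1 / 2 - (b : ℝ)|) * (‖u‖ * B) := by ring
    _ ≤ c * (‖u‖ * B) := by gcongr
    _ = _ := by ring

/-- upper bound for all `a`, `b` -/
theorem up (us : List ℂ) : ∀ {a b N : ℕ} {q : ℂ}, a + b + us.length ≤ N →
    ‖Dv a b us q‖ ≤ (N : ℝ) ^ us.length * pr us * (‖q‖ * (‖q‖⁻¹) ^ (a + b + us.length)) := by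
  induction us with
  | nil =>
    intro a b N q _
    simp [Dv, norm_T]
  | cons u us ih =>
    intro a b N q h
    simp only [List.length_cons] at h
    have h1 := ih (a := a + 1) (b := b) (N := N) (q := q) (by omega)
    have h2 := ih (a := a) (b := b + 1) (N := N) (q := q) (by omega)
    have e1 : a + 1 + b + us.length = a + b + (us.length + 1) := by omega
    have e2 : a + (b + 1) + us.length = a + b + (us.length + 1) := by omega
    rw [e1] at h1
    rw [e2] at h2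
    have hp := pr_nonneg us
    have h3 := step_up92 (u := u) (c := (N : ℝ)) (by positivity) h1 h2 (by
      have hN : ((a : ℝ)) + b + 1 ≤ N := by exact_mod_cast (by omega : a + b + 1 ≤ N)
      have a1 : |1 / 2 - (a : ℝ)| ≤ a + 1 / 2 := by
        rw [abs_le]
        have : (0 : ℝ) ≤ a := Nat.cast_nonneg _
        constructor <;> linarith
      have a2 : |1 / 2 - (b : ℝ)| ≤ b + 1 / 2 := by
        rw [abs_le]
        have : (0 : ℝ) ≤ b := Nat.cast_nonneg _
        constructor <;> linarith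
      linarith)
    refine h3.trans_eq ?_
    rw [pr_cons, List.length_cons, pow_succ]
    ring

/-- the sharp constants for `a, b ≥ 1` -/
def bc : ℕ → ℕ → ℕ
  | _, 0 => 1
  | s, n + 1 => s * bc (s + 1) n

theorem up1 (us : List ℂ) : ∀ {a b : ℕ} {q : ℂ}, 1 ≤ a → 1 ≤ b →
    ‖Dv a b us q‖ ≤ (bc (a + b - 1) us.length : ℝ) * pr us * (‖q‖ * (‖q‖⁻¹) ^ (a + b + us.length)) := by
  induction us with
  | nil =>
    intro a b q _ _
    simp [Dv, norm_T, bc]
  | cons u us ih =>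
    intro a b q ha hb
    have h1 := ih (a := a + 1) (b := b) (q := q) (by omega) hb
    have h2 := ih (a := a) (b := b + 1) (q := q) ha (by omega)
    have e1 : a + 1 + b + us.length = a + b + (us.length + 1) := by omega
    have e2 : a + (b + 1) + us.length = a + b + (us.length + 1) := by omega
    have e3 : a + 1 + b - 1 = a + b - 1 + 1 := by omega
    have e4 : a + (b + 1) - 1 = a + b - 1 + 1 := by omega
    rw [e1, e3] at h1
    rw [e2, e4] at h2
    have hp := pr_nonneg us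
    have h3 := step_up92 (u := u) (c := ((a + b - 1 : ℕ) : ℝ)) (by positivity) h1 h2 (by
      have a0 : (1 : ℝ) ≤ a := by exact_mod_cast ha
      have b0 : (1 : ℝ) ≤ b := by exact_mod_cast hb
      have a1 : |1 / 2 - (a : ℝ)| = a - 1 / 2 := by
        rw [abs_of_nonpos (by linarith)]
        ring
      have a2 : |1 / 2 - (b : ℝ)| = b - 1 / 2 := by
        rw [abs_of_nonpos (by linarith)]
        ring
      rw [a1, a2, Nat.cast_sub (by omega)]
      push_cast
      linarith)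
    refine h3.trans_eq ?_
    rw [pr_cons, List.length_cons, bc]
    push_cast
    ring

/-- one step of the lower bound, `b = 0` -/
private lemma step_low92 {a : ℕ} {u : ℂ} {us : List ℂ} {q : ℂ} {A B : ℝ} (ha : 1 ≤ a)
    (h1 : A ≤ ‖Dv (a + 1) 0 us q‖) (h2 : ‖Dv a 1 us q‖ ≤ B) :
    ‖u‖ * ((a - 1 / 2) * A - 1 / 2 * B) ≤ ‖Dv a 0 (u :: us) q‖ := by
  simp only [Dv]
  have a0 : (1 : ℝ) ≤ a := by exact_mod_cast ha
  have e : ∀ x y : ℂ, ‖x‖ - ‖y‖ ≤ ‖x + y‖ := by
    intro x y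
    have := norm_sub_norm_le x (-y)
    rwa [norm_neg, sub_neg_eq_add] at this
  refine le_trans ?_ (e _ _)
  rw [norm_mul, norm_mul, norm_mul, norm_mul, RCLike.norm_conj, norm_half92, norm_half92, abs_of_nonpos (by linarith),
    Nat.cast_zero, sub_zero, abs_of_nonneg (by norm_num : (0 : ℝ) ≤ 1 / 2), zero_add]
  have h3 : (a - 1 / 2) * ‖u‖ * A ≤ -(1 / 2 - (a : ℝ)) * ‖u‖ * ‖Dv (a + 1) 0 us q‖ := by
    have : -(1 / 2 - (a : ℝ)) = a - 1 / 2 := by ring
    rw [this]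
    have h4 : 0 ≤ ((a : ℝ) - 1 / 2) * ‖u‖ := mul_nonneg (by linarith) (norm_nonneg _)
    exact mul_le_mul_of_nonneg_left h1 h4
  have h5 : 1 / 2 * ‖u‖ * ‖Dv a 1 us q‖ ≤ 1 / 2 * ‖u‖ * B := mul_le_mul_of_nonneg_left h2 (by positivity)
  linarith

/-- the innermost derivative: `v` transversal to `q` -/
private lemma base_low92 {v q : ℂ} (hq : q ≠ 0) {s : ℝ} (hs0 : 0 ≤ s) (hs : s * (‖v‖ * ‖q‖) ^ 2 ≤ (v.im * q.re - v.re * q.im) ^ 2) :
    √(16 + 9 * s) * (‖v‖ * (‖q‖ * (‖q‖⁻¹) ^ 6)) ≤ ‖Dv 5 0 [v] q‖ := by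
  have hc : conj q ≠ 0 := by simpa using hq
  have hq0 : 0 < ‖q‖ := norm_pos_iff.2 hq
  have e1 : Dv 5 0 [v] q = ((‖q‖ : ℂ) * (q⁻¹) ^ 6 * (conj q)⁻¹) * (1 / 2 * (conj v * q - 9 * v * conj q)) := by
    have r1 : q⁻¹ * q = 1 := inv_mul_cancel₀ hq
    have r2 : (conj q)⁻¹ * conj q = 1 := inv_mul_cancel₀ hc
    simp only [Dv, T]
    push_cast
    linear_combination (9 / 2 * v * ‖q‖ * (q⁻¹) ^ 6) * r2 - (1 / 2 * conj v * ‖q‖ * (q⁻¹) ^ 5 * (conj q)⁻¹) * r1
  rw [e1, norm_mul, norm_mul, norm_mul, norm_pow, norm_inv, norm_inv, RCLike.norm_conj, Complex.norm_real, norm_norm]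
  have h1 : √(16 + 9 * s) * (‖v‖ * ‖q‖) ≤ ‖(1 / 2 * (conj v * q - 9 * v * conj q) : ℂ)‖ := by
    have h2 : ‖(1 / 2 * (conj v * q - 9 * v * conj q) : ℂ)‖ ^ 2 = 16 * (‖v‖ * ‖q‖) ^ 2 + 9 * (v.im * q.re - v.re * q.im) ^ 2 := by
      have a1 : ‖v‖ ^ 2 = v.re * v.re + v.im * v.im := by
        rw [← Complex.normSq_eq_norm_sq, Complex.normSq_apply]
      have a2 : ‖q‖ ^ 2 = q.re * q.re + q.im * q.im := by
        rw [← Complex.normSq_eq_norm_sq, Complex.normSq_apply]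
      rw [mul_pow, a1, a2, ← Complex.normSq_eq_norm_sq, Complex.normSq_apply]
      have b1 : ((1 / 2 * (conj v * q - 9 * v * conj q) : ℂ)).re = 1 / 2 * (v.re * q.re + v.im * q.im - 9 * (v.re * q.re + v.im * q.im)) := by
        simp
        try ring
      have b2 : ((1 / 2 * (conj v * q - 9 * v * conj q) : ℂ)).im = 1 / 2 * (v.re * q.im - v.im * q.re - 9 * (v.im * q.re - v.re * q.im)) := by
        simp
        try ring
      rw [b1, b2]
      ring
    have h3 : (√(16 + 9 * s) * (‖v‖ * ‖q‖)) ^ 2 ≤ ‖(1 / 2 * (conj v * q - 9 * v * conj q) : ℂ)‖ ^ 2 := by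
      rw [h2, mul_pow, Real.sq_sqrt (by positivity)]
      linarith
    exact (pow_le_pow_iff_left₀ (by positivity) (norm_nonneg _) two_ne_zero).1 h3
  calc √(16 + 9 * s) * (‖v‖ * (‖q‖ * (‖q‖⁻¹) ^ 6)) = (‖q‖ * (‖q‖⁻¹) ^ 6 * ‖q‖⁻¹) * (√(16 + 9 * s) * (‖v‖ * ‖q‖)) := by
        field_simp
    _ ≤ _ := mul_le_mul_of_nonneg_left h1 (by positivity)

/-- **the lower bound** for `v = i h` and `q` in the sector `|Im q| ≤ 2 Re q` -/
theorem low5 {w₁ w₂ w₃ w₄ v q : ℂ} (hv : v.re = 0) (hq : 0 < q.re) (hq2 : |q.im| ≤ 2 * q.re) :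
    pr [w₁, w₂, w₃, w₄, v] * (‖q‖ * (‖q‖⁻¹) ^ 6) ≤ ‖Dv 1 0 [w₁, w₂, w₃, w₄, v] q‖ := by
  have hq0 : q ≠ 0 := by
    intro h
    rw [h] at hq
    simp at hq
  have hqn : 0 < ‖q‖ := norm_pos_iff.2 hq0
  set Q : ℝ := ‖q‖ * (‖q‖⁻¹) ^ 6 with hQ
  have hQ0 : 0 < Q := by positivity
  have a2 : ‖q‖ ^ 2 = q.re * q.re + q.im * q.im := by
    rw [← Complex.normSq_eq_norm_sq, Complex.normSq_apply]
  have a1 : ‖v‖ ^ 2 = v.im * v.im := by
    rw [← Complex.normSq_eq_norm_sq, Complex.normSq_apply, hv]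
    ring
  have h0 := base_low92 (v := v) hq0 (s := 1 / 5) (by norm_num) (by
    rw [mul_pow, a1, a2, hv]
    have h1 : q.im * q.im ≤ 4 * (q.re * q.re) := by
      have h2 := abs_le.1 hq2
      nlinarith
    have h3 : 0 ≤ v.im * v.im := mul_self_nonneg _
    nlinarith [mul_nonneg h3 (mul_self_nonneg q.re), mul_le_mul_of_nonneg_left h1 h3])
  have hs : (21 / 5 : ℝ) ≤ √(16 + 9 * (1 / 5)) := Real.le_sqrt_of_sq_le (by norm_num)
  have hv0 := norm_nonneg v
  have h5 : (21 / 5 : ℝ) * (‖v‖ * Q) ≤ ‖Dv 5 0 [v] q‖ := le_trans (mul_le_mul_of_nonneg_right hs (by positivity)) h0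
  have u4 := up1 [v] (a := 4) (b := 1) (q := q) (by norm_num) le_rfl
  have u3 := up1 [w₄, v] (a := 3) (b := 1) (q := q) (by norm_num) le_rfl
  have u2 := up1 [w₃, w₄, v] (a := 2) (b := 1) (q := q) (by norm_num) le_rfl
  have u1 := up1 [w₂, w₃, w₄, v] (a := 1) (b := 1) (q := q) (by norm_num) le_rfl
  simp only [bc, List.length_cons, List.length_nil, pr_cons, pr_nil] at u1 u2 u3 u4
  norm_num at u1 u2 u3 u4
  have l4 := step_low92 (u := w₄) (by norm_num : 1 ≤ 4) h5 u4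
  have l3 := step_low92 (u := w₃) (by norm_num : 1 ≤ 3) l4 u3
  have l2 := step_low92 (u := w₂) (by norm_num : 1 ≤ 2) l3 u2
  have l1 := step_low92 (u := w₁) (by norm_num : 1 ≤ 1) l2 u1
  refine le_trans ?_ l1
  simp only [pr_cons, pr_nil]
  have hP : 0 ≤ ‖w₁‖ * (‖w₂‖ * (‖w₃‖ * (‖w₄‖ * (‖v‖ * 1)))) * Q := by positivity
  rw [hQ] at hP ⊢
  push_cast
  ring_nf at hP ⊢
  nlinarith
end Pool.Agent.Helper92.TD
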