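import Pool.Agent.Helper92.TD.Line
import Pool.Agent.Helper92.TD.Tower

/-!
# Project TD (MP_fb29e9_nt): the sum after five differences

`piece`: a small square. `final`: the octant.
-/

set_option autoImplicit false

namespace Pool.Agent.Helper92.TD

open Finset
open Pool.Agent.Helper22.AE
open Pool.Agent.Helper92.GC
open scoped ComplexConjugate

/-- iterated differences of a function on the lattice -/
def Dz : List (ℤ × ℤ) → (ℤ × ℤ → ℝ) → ℤ × ℤ → ℝ
  | [], f, k => f k
  | u :: us, f, k => Dz us f (k + u) - Dz us f k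

lemma fw_Dz (us : List (ℤ × ℤ)) (f : ℤ × ℤ → ℝ) (w : ℤ × ℤ) : fw (Dz us f) w = Dz (w :: us) f := rfl

lemma cz_add (k l : ℤ × ℤ) : cz (k + l) = cz k + cz l := by
  apply Complex.ext <;> simp [cz]

lemma Dz_nk (us : List (ℤ × ℤ)) : ∀ k : ℤ × ℤ, ((Dz us nk k : ℝ) : ℂ) = Df (us.map cz) (Dv 0 0 []) (cz k) := by
  induction us with
  | nil =>
    intro k
    simp [Dz, Df, Dv, T, nk]
  | cons u us ih =>
    intro k
    simp only [Dz, List.map_cons, Df]
    push_cast
    rw [ih, ih, cz_add]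

lemma Dz_lin (us : List (ℤ × ℤ)) (c : ℝ × ℝ) (h : 2 ≤ us.length) (k : ℤ × ℤ) : Dz us (fun k => dt k c) k = 0 := by
  induction us generalizing k with
  | nil => simp at h
  | cons u us ih =>
    rcases us with _ | ⟨w, ws⟩
    · simp at h
    · rcases ws with _ | ⟨x, xs⟩
      · simp only [Dz, dt, Prod.fst_add, Prod.snd_add]
        push_cast
        ring
      · have h1 : ∀ k, Dz (w :: x :: xs) (fun k => dt k c) k = 0 := fun k => ih (by simp) k
        show Dz (w :: x :: xs) (fun k => dt k c) (k + u) - Dz (w :: x :: xs) (fun k => dt k c) k = 0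
        rw [h1, h1, sub_zero]

lemma Dz_split (us : List (ℤ × ℤ)) (f g : ℤ × ℤ → ℝ) (R : ℝ) : ∀ k, Dz us (fun k => R * f k + g k) k = R * Dz us f k + Dz us g k := by
  induction us with
  | nil =>
    intro k
    rfl
  | cons u us ih =>
    intro k
    simp only [Dz]
    rw [ih, ih]
    ring

/-- the phase -/
noncomputable def phs (R : ℝ) (c : ℝ × ℝ) (k : ℤ × ℤ) : ℝ := R * nk k + dt k c

lemma Dz_phs (us : List (ℤ × ℤ)) (R : ℝ) (c : ℝ × ℝ) (h : 2 ≤ us.length) (k : ℤ × ℤ) : Dz us (phs R c) k = R * Dz us nk k := by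
  have h1 := Dz_split us nk (fun k => dt k c) R k
  rw [Dz_lin us c h, add_zero] at h1
  exact h1

lemma conj_Dv (us : List ℂ) : ∀ (a b : ℕ) (q : ℂ), conj (Dv a b us q) = Dv b a us q := by
  induction us with
  | nil =>
    intro a b q
    simp only [Dv, T, map_mul, map_pow, map_inv₀, Complex.conj_conj, Complex.conj_ofReal]
    ring
  | cons u us ih =>
    intro a b q
    simp only [Dv, map_add, map_mul, ih, Complex.conj_conj, map_sub, map_div₀, map_one, map_natCast, map_ofNat]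
    ring

lemma Dv_re (us : List ℂ) (z q : ℂ) : Dv 0 0 (z :: us) q = ((z * Dv 1 0 us q).re : ℂ) := by
  have h1 := conj_Dv us 1 0 q
  simp only [Dv, zero_add]
  rw [← h1]
  apply Complex.ext
  · simp
    ring
  · simp
    ring

/-- facts on the points close to the region -/
lemma near_pt {K D : ℝ} {p q : ℂ} (hK : 0 < K) (hD : D ≤ K / 2) (hp : K ≤ p.re) (hq : ‖q - p‖ ≤ D) :
    q ≠ 0 ∧ K / 2 ≤ ‖q‖ := by
  have h1 : |(q - p).re| ≤ D := (Complex.abs_re_le_norm _).trans hq
  rw [Complex.sub_re] at h1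
  have h2 := (abs_le.1 h1).1
  have h3 : K / 2 ≤ q.re := by linarith
  have h4 : K / 2 ≤ ‖q‖ := h3.trans ((le_abs_self _).trans (Complex.abs_re_le_norm _))
  refine ⟨?_, h4⟩
  intro h
  rw [h, norm_zero] at h4
  linarith

lemma up_near {K : ℝ} {us : List ℂ} {a b N s : ℕ} {q : ℂ} (hK : 0 < K) (hN : a + b + us.length ≤ N) (hs : a + b + us.length = s + 1)
    (hq : K / 2 ≤ ‖q‖) : ‖Dv a b us q‖ ≤ (N : ℝ) ^ us.length * 2 ^ s * (pr us / K ^ s) := by
  have h1 := up us hN (q := q)
  refine h1.trans ?_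
  rw [hs]
  have hq0 : 0 < ‖q‖ := by linarith
  have h2 : ‖q‖ * (‖q‖⁻¹) ^ (s + 1) = (‖q‖⁻¹) ^ s := by
    rw [pow_succ]
    field_simp
  have h3 : (‖q‖⁻¹) ^ s ≤ (2 / K) ^ s := by
    refine pow_le_pow_left₀ (by positivity) ?_ s
    rw [inv_le_comm₀ hq0 (by positivity), inv_div]
    exact hq
  rw [h2]
  have hp := pr_nonneg us
  calc (N : ℝ) ^ us.length * pr us * (‖q‖⁻¹) ^ s ≤ (N : ℝ) ^ us.length * pr us * (2 / K) ^ s := by gcongr
    _ = _ := by
      rw [div_pow]
      ring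

/-- variation of the first derivatives -/
lemma var_near {K D : ℝ} {us : List ℂ} {a b : ℕ} {p q : ℂ} (hK : 0 < K) (hD : D ≤ K / 2) (hp : K ≤ p.re) (hus : us.length = 5)
    (hab : a + b = 1) (hq : ‖q - p‖ ≤ D) : ‖Dv a b us q - Dv a b us p‖ ≤ 7529536 * (D / K) * (pr us / K ^ 5) := by
  have hsn : sn [q - p] = ‖q - p‖ := by simp
  have hn : ∀ x, ‖x - p‖ ≤ sn [q - p] → x ≠ 0 ∧ K / 2 ≤ ‖x‖ := fun x hx => near_pt hK hD hp (by
    rw [hsn] at hx
    exact hx.trans hq)
  have hpr := pr_nonneg us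
  have h1 := mv [q - p] (a := a) (b := b) (vs := us) (p := p) (L := 0) (ε := 7529536 * (D / K) * (pr us / K ^ 5))
    (fun x hx => (hn x hx).1) (fun x hx => by
      rw [sub_zero]
      have h2 := up_near (K := K) (us := us ++ [q - p]) (a := a) (b := b) (N := 7) (s := 6) (q := x) hK
        (by rw [List.length_append, hus, hab]; simp) (by rw [List.length_append, hus, hab]; simp) (hn x hx).2
      refine h2.trans ?_
      rw [List.length_append, hus, pr_append]
      simp only [List.length_cons, List.length_nil, pr_cons, pr_nil, mul_one, zero_add]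
      have e : 7529536 * (D / K) * (pr us / K ^ 5) = 7529536 * (pr us * D / K ^ 6) := by
        field_simp
      rw [e]
      norm_num
      gcongr)
  have e : Df [q - p] (Dv a b us) p - 0 = Dv a b us q - Dv a b us p := by
    simp only [Df, sub_zero]
    rw [show p + (q - p) = q by ring]
  rwa [e] at h1

/-- the differences in the direction `z` -/
lemma first_diff {K D : ℝ} {us : List (ℤ × ℤ)} {k k0 z : ℤ × ℤ} (hK : 0 < K) (hD : D ≤ K / 2) (hp : K ≤ (cz k0).re)
    (hus : us.length = 5) (hz : ‖cz z‖ = 1) (hk : ‖cz k - cz k0‖ + 1 + sn (us.map cz) ≤ D) :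
    |Dz (z :: us) nk k - (cz z * Dv 1 0 (us.map cz) (cz k0)).re| ≤ 7529536 * (D / K) * (pr (us.map cz) / K ^ 5) := by
  have hlen : (us.map cz).length = 5 := by rw [List.length_map, hus]
  have hd : ∀ q, ‖q - cz k‖ ≤ sn (cz z :: us.map cz) → ‖q - cz k0‖ ≤ D := by
    intro q hq
    rw [sn_cons, hz] at hq
    calc ‖q - cz k0‖ = ‖(q - cz k) + (cz k - cz k0)‖ := by ring_nf
      _ ≤ ‖q - cz k‖ + ‖cz k - cz k0‖ := norm_add_le _ _
      _ ≤ _ := by linarith
  have h1 := mv (cz z :: us.map cz) (a := 0) (b := 0) (vs := []) (p := cz k) (L := Dv 0 0 (cz z :: us.map cz) (cz k0))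
    (ε := 7529536 * (D / K) * (pr (us.map cz) / K ^ 5)) (fun q hq => (near_pt hK hD hp (hd q hq)).1) (fun q hq => by
      rw [List.nil_append]
      have a1 := var_near (us := us.map cz) (a := 1) (b := 0) hK hD hp hlen rfl (hd q hq)
      have a2 := var_near (us := us.map cz) (a := 0) (b := 1) hK hD hp hlen rfl (hd q hq)
      simp only [Dv, zero_add]
      have e : (1 / 2 - ((0 : ℕ) : ℂ)) * cz z * Dv 1 0 (us.map cz) q + (1 / 2 - ((0 : ℕ) : ℂ)) * conj (cz z) * Dv 0 1 (us.map cz) q -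
          ((1 / 2 - ((0 : ℕ) : ℂ)) * cz z * Dv 1 0 (us.map cz) (cz k0) +
            (1 / 2 - ((0 : ℕ) : ℂ)) * conj (cz z) * Dv 0 1 (us.map cz) (cz k0)) =
          1 / 2 * (cz z * (Dv 1 0 (us.map cz) q - Dv 1 0 (us.map cz) (cz k0))) +
            1 / 2 * (conj (cz z) * (Dv 0 1 (us.map cz) q - Dv 0 1 (us.map cz) (cz k0))) := by
        push_cast
        ring
      rw [e]
      refine (norm_add_le _ _).trans ?_
      rw [norm_mul, norm_mul, norm_mul, norm_mul, RCLike.norm_conj, hz, one_mul, one_mul]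
      have e2 : ‖(1 / 2 : ℂ)‖ = 1 / 2 := by norm_num
      rw [e2]
      linarith)
  have e : Df (cz z :: us.map cz) (Dv 0 0 []) (cz k) - Dv 0 0 (cz z :: us.map cz) (cz k0) =
      ((Dz (z :: us) nk k - (cz z * Dv 1 0 (us.map cz) (cz k0)).re : ℝ) : ℂ) := by
    rw [Dv_re]
    push_cast
    rw [Dz_nk, List.map_cons]
  rw [e, Complex.norm_real, Real.norm_eq_abs] at h1
  exact h1

/-- upper bound for the first differences -/
lemma first_up {K D : ℝ} {us : List (ℤ × ℤ)} {k k0 z : ℤ × ℤ} (hK : 0 < K) (hD : D ≤ K / 2) (hp : K ≤ (cz k0).re)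
    (hus : us.length = 5) (hz : ‖cz z‖ = 1) (hk : ‖cz k - cz k0‖ + 1 + sn (us.map cz) ≤ D) :
    |Dz (z :: us) nk k| ≤ 1492992 * (pr (us.map cz) / K ^ 5) := by
  have hlen : (us.map cz).length = 5 := by rw [List.length_map, hus]
  have hd : ∀ q, ‖q - cz k‖ ≤ sn (cz z :: us.map cz) → ‖q - cz k0‖ ≤ D := by
    intro q hq
    rw [sn_cons, hz] at hq
    calc ‖q - cz k0‖ = ‖(q - cz k) + (cz k - cz k0)‖ := by ring_nf
      _ ≤ ‖q - cz k‖ + ‖cz k - cz k0‖ := norm_add_le _ _
      _ ≤ _ := by linarith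
  have h1 := mv (cz z :: us.map cz) (a := 0) (b := 0) (vs := []) (p := cz k) (L := 0)
    (ε := 1492992 * (pr (us.map cz) / K ^ 5)) (fun q hq => (near_pt hK hD hp (hd q hq)).1) (fun q hq => by
      rw [List.nil_append, sub_zero]
      have h2 := up_near (K := K) (us := cz z :: us.map cz) (a := 0) (b := 0) (N := 6) (s := 5) (q := q) hK
        (by rw [List.length_cons, hlen]) (by rw [List.length_cons, hlen]) (near_pt hK hD hp (hd q hq)).2
      refine h2.trans_eq ?_
      rw [List.length_cons, hlen, pr_cons, hz, one_mul]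
      norm_num)
  have e : Df (cz z :: us.map cz) (Dv 0 0 []) (cz k) - 0 = ((Dz (z :: us) nk k : ℝ) : ℂ) := by
    rw [Dz_nk, List.map_cons, sub_zero]
  rw [e, Complex.norm_real, Real.norm_eq_abs] at h1
  exact h1

/-- upper bound for the second differences -/
lemma second_up {K D : ℝ} {us : List (ℤ × ℤ)} {k k0 z : ℤ × ℤ} (hK : 0 < K) (hD : D ≤ K / 2) (hp : K ≤ (cz k0).re)
    (hus : us.length = 5) (hz : ‖cz z‖ = 1) (hk : ‖cz k - cz k0‖ + 2 + sn (us.map cz) ≤ D) :
    |Dz (z :: z :: us) nk k| ≤ 52706752 * (pr (us.map cz) / K ^ 6) := by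
  have hlen : (us.map cz).length = 5 := by rw [List.length_map, hus]
  have hd : ∀ q, ‖q - cz k‖ ≤ sn (cz z :: cz z :: us.map cz) → ‖q - cz k0‖ ≤ D := by
    intro q hq
    rw [sn_cons, sn_cons, hz] at hq
    calc ‖q - cz k0‖ = ‖(q - cz k) + (cz k - cz k0)‖ := by ring_nf
      _ ≤ ‖q - cz k‖ + ‖cz k - cz k0‖ := norm_add_le _ _
      _ ≤ _ := by linarith
  have h1 := mv (cz z :: cz z :: us.map cz) (a := 0) (b := 0) (vs := []) (p := cz k) (L := 0)
    (ε := 52706752 * (pr (us.map cz) / K ^ 6)) (fun q hq => (near_pt hK hD hp (hd q hq)).1) (fun q hq => by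
      rw [List.nil_append, sub_zero]
      have h2 := up_near (K := K) (us := cz z :: cz z :: us.map cz) (a := 0) (b := 0) (N := 7) (s := 6) (q := q) hK
        (by rw [List.length_cons, List.length_cons, hlen]) (by rw [List.length_cons, List.length_cons, hlen])
        (near_pt hK hD hp (hd q hq)).2
      refine h2.trans_eq ?_
      rw [List.length_cons, List.length_cons, hlen, pr_cons, pr_cons, hz, one_mul, one_mul]
      norm_num)
  have e : Df (cz z :: cz z :: us.map cz) (Dv 0 0 []) (cz k) - 0 = ((Dz (z :: z :: us) nk k : ℝ) : ℂ) := by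
    rw [Dz_nk, List.map_cons, List.map_cons, sub_zero]
  rw [e, Complex.norm_real, Real.norm_eq_abs] at h1
  exact h1

end Pool.Agent.Helper92.TD
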