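import Pool.Agent.Helper92.TD.Final

/-!
# Project TD (MP_fb29e9_nt): one differencing step with power means

`step_gen`: the van der Corput inequality with powers. `sum_inv2`, `sum_inv1`: the averages of `1 / |w|`.
-/

set_option autoImplicit false

namespace Pool.Agent.Helper92.TD

open Finset
open Pool.Agent.Helper22.AE
open Pool.Agent.Helper92.GC

lemma pow_sum_le92 {ι : Type*} (s : Finset ι) (f : ι → ℝ) (hf : ∀ i ∈ s, 0 ≤ f i) {m : ℕ} (hm : 1 ≤ m) {N : ℝ} (hN : (s.card : ℝ) ≤ N) :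
    (∑ i ∈ s, f i) ^ m ≤ N ^ (m - 1) * ∑ i ∈ s, f i ^ m := by
  rcases s.eq_empty_or_nonempty with rfl | hs
  · simp only [sum_empty, mul_zero]
    rw [zero_pow (by omega)]
  obtain ⟨n, rfl⟩ : ∃ n, m = n + 1 := ⟨m - 1, by omega⟩
  have hc : (0 : ℝ) < s.card := by exact_mod_cast hs.card_pos
  have h1 := pow_sum_div_card_le_sum_pow hf n
  rw [div_le_iff₀ (by positivity)] at h1
  rw [Nat.add_sub_cancel]
  have h2 : 0 ≤ ∑ i ∈ s, f i ^ (n + 1) := Finset.sum_nonneg fun i hi => pow_nonneg (hf i hi) _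
  calc (∑ i ∈ s, f i) ^ (n + 1) ≤ (∑ i ∈ s, f i ^ (n + 1)) * (s.card : ℝ) ^ n := h1
    _ ≤ (∑ i ∈ s, f i ^ (n + 1)) * N ^ n := by gcongr
    _ = _ := by ring

theorem step_gen {K : ℝ} {Ω U D B : Finset (ℤ × ℤ)} (a : ℤ × ℤ → ℂ) (f : ℤ × ℤ → ℝ) {m : ℕ} (hm : 1 ≤ m) (hK : 0 < K)
    (hD : ∀ u ∈ U, ∀ u' ∈ U, u - u' ∈ D) (hB : ∀ k ∈ Ω, ∀ u ∈ U, k - u ∈ B) {n : ℝ} (hn : 0 < n) (hU : (U.card : ℝ) = n)
    (hBc : (B.card : ℝ) ≤ 64 * K ^ 2) (hDc : ((D.erase 0).card : ℝ) ≤ 4 * n) (hΩ : (Ω.card : ℝ) ≤ 64 * K ^ 2)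
    (ha : ∀ k ∈ Ω, ‖a k‖ ≤ 1) :
    ((‖S2 Ω a f‖ / K ^ 2) ^ 2) ^ m ≤ 2 ^ m * ((4096 / n) ^ m +
      256 ^ m / n * ∑ w ∈ D.erase 0, (‖S2 (sh Ω w) (aw a w) (fw f w)‖ / K ^ 2) ^ m) := by
  have h1 := vdc a f hD hB
  rw [hU] at h1
  set ρ : ℤ × ℤ → ℝ := fun w => ‖S2 (sh Ω w) (aw a w) (fw f w)‖ / K ^ 2 with hρ
  have hρ0 : ∀ w, 0 ≤ ρ w := fun w => by
    rw [hρ]
    positivity
  have hne : U.Nonempty := by
    rw [← Finset.card_pos]
    have : (0 : ℝ) < U.card := by rw [hU]; exact hn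
    exact_mod_cast this
  obtain ⟨u, hu⟩ := hne
  have h0D : (0 : ℤ × ℤ) ∈ D := by
    have := hD u hu u hu
    rwa [sub_self] at this
  have hr0 : ρ 0 ≤ 64 := by
    rw [hρ]
    simp only
    rw [div_le_iff₀ (by positivity)]
    refine (S2_le_card _ (fun k hk => ?_)).trans (le_trans ?_ hΩ)
    · unfold aw
      rw [add_zero, norm_mul, RCLike.norm_conj]
      have := ha k (mem_sh.1 hk).1
      exact mul_le_one₀ this (norm_nonneg _) this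
    · have : (sh Ω 0).card ≤ Ω.card := Finset.card_le_card (Finset.filter_subset _ _)
      exact_mod_cast this
  set Sg : ℝ := ∑ w ∈ D.erase 0, ρ w with hS1
  have hS0 : 0 ≤ Sg := Finset.sum_nonneg fun w _ => hρ0 w
  have h2 : (‖S2 Ω a f‖ / K ^ 2) ^ 2 ≤ 4096 / n + 64 / n * Sg := by
    have h3 : ∑ w ∈ D, ‖S2 (sh Ω w) (aw a w) (fw f w)‖ = K ^ 2 * (ρ 0 + Sg) := by
      rw [← Finset.add_sum_erase D _ h0D, _root_.mul_add, hS1, Finset.mul_sum]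
      have e : ∀ w, ‖S2 (sh Ω w) (aw a w) (fw f w)‖ = K ^ 2 * ρ w := by
        intro w
        rw [hρ]
        field_simp
      rw [e 0, Finset.sum_congr rfl fun w _ => e w]
    rw [h3] at h1
    have h4 : n * ‖S2 Ω a f‖ ^ 2 ≤ 64 * K ^ 2 * (K ^ 2 * (64 + Sg)) := by
      refine h1.trans ?_
      gcongr
    rw [div_pow, div_le_iff₀ (by positivity)]
    calc ‖S2 Ω a f‖ ^ 2 = (n * ‖S2 Ω a f‖ ^ 2) / n := by field_simp
      _ ≤ (64 * K ^ 2 * (K ^ 2 * (64 + Sg))) / n := by gcongr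
      _ = _ := by
        field_simp
        ring
  have h5 : (64 / n * Sg) ^ m ≤ 256 ^ m / n * ∑ w ∈ D.erase 0, ρ w ^ m := by
    rw [mul_pow]
    have h6 := pow_sum_le92 (D.erase 0) ρ (fun w _ => hρ0 w) hm hDc
    have h7 : 0 ≤ ∑ w ∈ D.erase 0, ρ w ^ m := Finset.sum_nonneg fun w _ => pow_nonneg (hρ0 w) _
    obtain ⟨l, rfl⟩ : ∃ l, m = l + 1 := ⟨m - 1, by omega⟩
    rw [Nat.add_sub_cancel] at h6
    calc (64 / n) ^ (l + 1) * Sg ^ (l + 1) ≤ (64 / n) ^ (l + 1) * ((4 * n) ^ l * ∑ w ∈ D.erase 0, ρ w ^ (l + 1)) := by gcongr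
      _ = (64 * 256 ^ l) / n * ∑ w ∈ D.erase 0, ρ w ^ (l + 1) := by
        rw [div_pow, mul_pow, show (256 : ℝ) = 64 * 4 by norm_num, mul_pow]
        field_simp
        ring
      _ ≤ 256 ^ (l + 1) / n * ∑ w ∈ D.erase 0, ρ w ^ (l + 1) := by
        refine mul_le_mul_of_nonneg_right (div_le_div_of_nonneg_right ?_ hn.le) h7
        rw [pow_succ (256 : ℝ) l]
        have : (0 : ℝ) ≤ 256 ^ l := by positivity
        linarith
  calc ((‖S2 Ω a f‖ / K ^ 2) ^ 2) ^ m ≤ (4096 / n + 64 / n * Sg) ^ m := by gcongr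
    _ ≤ 2 ^ (m - 1) * ((4096 / n) ^ m + (64 / n * Sg) ^ m) := add_pow_le (by positivity) (by positivity) m
    _ ≤ 2 ^ m * ((4096 / n) ^ m + 256 ^ m / n * ∑ w ∈ D.erase 0, ρ w ^ m) := by
      gcongr
      · norm_num
      · omega

/-- the two-dimensional shifts -/
noncomputable def D2 (H : ℕ) : Finset (ℤ × ℤ) := Ioo (-(H : ℤ)) H ×ˢ Ioo (-(H : ℤ)) H

/-- the vertical shifts -/
noncomputable def D1 (H : ℕ) : Finset (ℤ × ℤ) := ({0} : Finset ℤ) ×ˢ Ioo (-(H : ℤ)) H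

private lemma inner92 (H : ℕ) (x : ℤ) : ∑ y ∈ Ioo (-(H : ℤ)) H, (if x ≠ 0 ∧ |y| ≤ |x| then 1 / ((|x| : ℤ) : ℝ) else 0) ≤ 3 := by
  rcases eq_or_ne x 0 with rfl | hx
  · simp
  rw [← Finset.sum_filter, Finset.sum_const, nsmul_eq_mul]
  have hx1 : 1 ≤ |x| := Int.one_le_abs hx
  have hx2 : (1 : ℝ) ≤ ((|x| : ℤ) : ℝ) := by exact_mod_cast hx1
  have h1 : ((Ioo (-(H : ℤ)) H).filter (fun y => x ≠ 0 ∧ |y| ≤ |x|)).card ≤ (Icc (-|x|) |x|).card := by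
    refine Finset.card_le_card ?_
    intro y hy
    have := (Finset.mem_filter.1 hy).2.2
    rw [mem_Icc]
    exact abs_le.1 this
  rw [Int.card_Icc] at h1
  have h2 : (((Ioo (-(H : ℤ)) H).filter (fun y => x ≠ 0 ∧ |y| ≤ |x|)).card : ℝ) ≤ 3 * ((|x| : ℤ) : ℝ) := by
    have h3 : (((Ioo (-(H : ℤ)) H).filter (fun y => x ≠ 0 ∧ |y| ≤ |x|)).card : ℤ) ≤ 3 * |x| := by
      have h4 : (((Ioo (-(H : ℤ)) H).filter (fun y => x ≠ 0 ∧ |y| ≤ |x|)).card : ℤ) ≤ ((|x| + 1 - -|x|).toNat : ℤ) := by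
        exact_mod_cast h1
      omega
    exact_mod_cast h3
  calc _ ≤ (3 * ((|x| : ℤ) : ℝ)) * (1 / ((|x| : ℤ) : ℝ)) := by gcongr
    _ = 3 := by field_simp

private lemma abs_le_norm_cz92 (w : ℤ × ℤ) : ((|w.1| : ℤ) : ℝ) ≤ ‖cz w‖ ∧ ((|w.2| : ℤ) : ℝ) ≤ ‖cz w‖ := by
  have h1 := Complex.abs_re_le_norm (cz w)
  have h2 := Complex.abs_im_le_norm (cz w)
  rw [Int.cast_abs, Int.cast_abs]
  exact ⟨h1, h2⟩

lemma cz_ne_zero92 {w : ℤ × ℤ} (hw : w ≠ 0) : 0 < ‖cz w‖ := by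
  rw [norm_pos_iff]
  intro h
  apply hw
  have h1 : (w.1 : ℝ) = 0 := congrArg Complex.re h
  have h2 : (w.2 : ℝ) = 0 := congrArg Complex.im h
  exact Prod.ext (by exact_mod_cast h1) (by exact_mod_cast h2)

theorem sum_inv2 (H : ℕ) : ∑ w ∈ (D2 H).erase 0, 1 / ‖cz w‖ ≤ 12 * H := by
  set g : ℤ → ℤ → ℝ := fun x y => if x ≠ 0 ∧ |y| ≤ |x| then 1 / ((|x| : ℤ) : ℝ) else 0 with hg
  have hg0 : ∀ x y, 0 ≤ g x y := by
    intro x y
    rw [hg]
    simp only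
    split_ifs
    · positivity
    · exact le_rfl
  have h1 : ∀ w ∈ (D2 H).erase 0, 1 / ‖cz w‖ ≤ g w.1 w.2 + g w.2 w.1 := by
    intro w hw
    have hw0 : w ≠ 0 := (Finset.mem_erase.1 hw).1
    have hn := cz_ne_zero92 hw0
    obtain ⟨a1, a2⟩ := abs_le_norm_cz92 w
    rcases le_total |w.2| |w.1| with h | h
    · have hx : w.1 ≠ 0 := by
        intro h0
        rw [h0, abs_zero] at h
        have : w.2 = 0 := abs_nonpos_iff.1 h
        exact hw0 (Prod.ext h0 this)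
      have h3 : g w.1 w.2 = 1 / ((|w.1| : ℤ) : ℝ) := by
        rw [hg]
        exact if_pos ⟨hx, h⟩
      have h4 : (0 : ℝ) < ((|w.1| : ℤ) : ℝ) := by exact_mod_cast abs_pos.2 hx
      have h5 : 1 / ‖cz w‖ ≤ 1 / ((|w.1| : ℤ) : ℝ) := one_div_le_one_div_of_le h4 a1
      rw [h3]
      have := hg0 w.2 w.1
      linarith
    · have hx : w.2 ≠ 0 := by
        intro h0
        rw [h0, abs_zero] at h
        have : w.1 = 0 := abs_nonpos_iff.1 h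
        exact hw0 (Prod.ext this h0)
      have h3 : g w.2 w.1 = 1 / ((|w.2| : ℤ) : ℝ) := by
        rw [hg]
        exact if_pos ⟨hx, h⟩
      have h4 : (0 : ℝ) < ((|w.2| : ℤ) : ℝ) := by exact_mod_cast abs_pos.2 hx
      have h5 : 1 / ‖cz w‖ ≤ 1 / ((|w.2| : ℤ) : ℝ) := one_div_le_one_div_of_le h4 a2
      rw [h3]
      have := hg0 w.1 w.2
      linarith
  have hcard : ((Ioo (-(H : ℤ)) H).card : ℝ) ≤ 2 * H := by
    rw [Int.card_Ioo]
    have : ((H : ℤ) - -(H : ℤ) - 1).toNat ≤ 2 * H := by omega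
    exact_mod_cast this
  calc ∑ w ∈ (D2 H).erase 0, 1 / ‖cz w‖ ≤ ∑ w ∈ (D2 H).erase 0, (g w.1 w.2 + g w.2 w.1) := Finset.sum_le_sum h1
    _ ≤ ∑ w ∈ D2 H, (g w.1 w.2 + g w.2 w.1) :=
      Finset.sum_le_sum_of_subset_of_nonneg (Finset.erase_subset _ _) (fun w _ _ => add_nonneg (hg0 _ _) (hg0 _ _))
    _ = ∑ x ∈ Ioo (-(H : ℤ)) H, ∑ y ∈ Ioo (-(H : ℤ)) H, g x y + ∑ y ∈ Ioo (-(H : ℤ)) H, ∑ x ∈ Ioo (-(H : ℤ)) H, g y x := by
      unfold D2
      rw [Finset.sum_add_distrib, Finset.sum_product, Finset.sum_product_right]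
    _ ≤ ∑ x ∈ Ioo (-(H : ℤ)) H, 3 + ∑ y ∈ Ioo (-(H : ℤ)) H, 3 :=
      add_le_add (Finset.sum_le_sum fun x _ => inner92 H x) (Finset.sum_le_sum fun x _ => inner92 H x)
    _ ≤ _ := by
      rw [Finset.sum_const, nsmul_eq_mul]
      linarith

theorem sum_inv1 {H : ℕ} (_ : 1 ≤ H) : ∑ w ∈ (D1 H).erase 0, 1 / ‖cz w‖ ≤ 2 * (1 + Real.log H) := by
  classical
  have h0 : ((∑ n ∈ range H, 1 / ((n : ℝ) + 1) : ℝ)) ≤ 1 + Real.log H := by
    have := harmonic_le_one_add_log H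
    unfold harmonic at this
    push_cast at this
    simpa [one_div] using this
  have hsub : (D1 H).erase 0 ⊆ (range H).image (fun n : ℕ => ((0 : ℤ), (n : ℤ) + 1)) ∪
      (range H).image (fun n : ℕ => ((0 : ℤ), -((n : ℤ) + 1))) := by
    intro w hw
    obtain ⟨hw0, hw1⟩ := Finset.mem_erase.1 hw
    unfold D1 at hw1
    rw [mem_product, mem_singleton, mem_Ioo] at hw1
    obtain ⟨b1, b2, b3⟩ := hw1
    have b4 : w.2 ≠ 0 := fun h => hw0 (Prod.ext b1 h)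
    rw [mem_union, mem_image, mem_image]
    rcases lt_or_gt_of_ne b4 with h | h
    · right
      refine ⟨(-w.2 - 1).toNat, ?_, ?_⟩
      · rw [mem_range]
        omega
      · refine Prod.ext b1.symm ?_
        simp only
        omega
    · left
      refine ⟨(w.2 - 1).toNat, ?_, ?_⟩
      · rw [mem_range]
        omega
      · refine Prod.ext b1.symm ?_
        simp only
        omega
  have hA : ∑ w ∈ (range H).image (fun n : ℕ => ((0 : ℤ), (n : ℤ) + 1)), 1 / ‖cz w‖ = ∑ n ∈ range H, 1 / ((n : ℝ) + 1) := by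
    rw [Finset.sum_image (fun n _ m _ h => by
      have := (Prod.ext_iff.1 h).2
      simp only at this
      omega)]
    refine Finset.sum_congr rfl fun n _ => ?_
    congr 1
    have e : cz (0, (n : ℤ) + 1) = (((n : ℝ) + 1 : ℝ) : ℂ) * Complex.I := by
      apply Complex.ext <;> simp [cz]
    rw [e, norm_mul, Complex.norm_I, mul_one, Complex.norm_real, Real.norm_of_nonneg (by positivity)]
  have hB : ∑ w ∈ (range H).image (fun n : ℕ => ((0 : ℤ), -((n : ℤ) + 1))), 1 / ‖cz w‖ = ∑ n ∈ range H, 1 / ((n : ℝ) + 1) := by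
    rw [Finset.sum_image (fun n _ m _ h => by
      have := (Prod.ext_iff.1 h).2
      simp only at this
      omega)]
    refine Finset.sum_congr rfl fun n _ => ?_
    congr 1
    have e : cz (0, -((n : ℤ) + 1)) = ((-((n : ℝ) + 1) : ℝ) : ℂ) * Complex.I := by
      apply Complex.ext <;> simp [cz]
    rw [e, norm_mul, Complex.norm_I, mul_one, Complex.norm_real, norm_neg, Real.norm_of_nonneg (by positivity)]
  have hpos : ∀ w : ℤ × ℤ, 0 ≤ 1 / ‖cz w‖ := fun w => by positivity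
  calc ∑ w ∈ (D1 H).erase 0, 1 / ‖cz w‖ ≤ _ := Finset.sum_le_sum_of_subset_of_nonneg hsub (fun w _ _ => hpos w)
    _ ≤ ∑ w ∈ (range H).image (fun n : ℕ => ((0 : ℤ), (n : ℤ) + 1)), 1 / ‖cz w‖ +
        ∑ w ∈ (range H).image (fun n : ℕ => ((0 : ℤ), -((n : ℤ) + 1))), 1 / ‖cz w‖ := by
      rw [← Finset.sum_union_inter]
      have : 0 ≤ ∑ w ∈ (range H).image (fun n : ℕ => ((0 : ℤ), (n : ℤ) + 1)) ∩
        (range H).image (fun n : ℕ => ((0 : ℤ), -((n : ℤ) + 1))), 1 / ‖cz w‖ := Finset.sum_nonneg fun w _ => hpos w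
      linarith
    _ ≤ _ := by
      rw [hA, hB]
      linarith

end Pool.Agent.Helper92.TD
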