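import Pool.Agent.Helper92.TD.Piece

/-!
# Project TD (MP_fb29e9_nt): the sum over the octant after five differences

`piece`: a small square. `final`: all squares.
-/

set_option autoImplicit false

namespace Pool.Agent.Helper92.TD

open Finset
open Pool.Agent.Helper22.AE
open Pool.Agent.Helper92.GC
open scoped ComplexConjugate

/-- the size of the first differences -/
noncomputable def Lam (K R : ℝ) (us : List (ℤ × ℤ)) : ℝ := R * (pr (us.map cz) / K ^ 5)

private lemma norm_cz_le92 {k k0 : ℤ × ℤ} {L : ℕ} (h1 : |k.1 - k0.1| ≤ L) (h2 : |k.2 - k0.2| ≤ L) : ‖cz k - cz k0‖ ≤ 2 * L := by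
  refine (Complex.norm_le_abs_re_add_abs_im _).trans ?_
  have e1 : (cz k - cz k0).re = ((k.1 - k0.1 : ℤ) : ℝ) := by simp [cz]
  have e2 : (cz k - cz k0).im = ((k.2 - k0.2 : ℤ) : ℝ) := by simp [cz]
  rw [e1, e2, ← Int.cast_abs, ← Int.cast_abs]
  have a1 : ((|k.1 - k0.1| : ℤ) : ℝ) ≤ ((L : ℤ) : ℝ) := by exact_mod_cast h1
  have a2 : ((|k.2 - k0.2| : ℤ) : ℝ) ≤ ((L : ℤ) : ℝ) := by exact_mod_cast h2
  push_cast at a1 a2 ⊢
  linarith

/-- **a small square** -/
theorem piece {K R V : ℝ} {c : ℝ × ℝ} {w₁ w₂ w₃ w₄ v : ℤ × ℤ} {us : List (ℤ × ℤ)} (hus : us = [w₁, w₂, w₃, w₄, v])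
    (hK : 10 ^ 12 ≤ K) (hR : 0 < R) (hV : 0 ≤ V) (hv : v.1 = 0) (hpr : 0 < pr (us.map cz)) (hsn : sn (us.map cz) ≤ 5 * (K / 10 ^ 11))
    (hΛ : Lam K R us ≤ 1 / 4000000) {Ω : Finset (ℤ × ℤ)} {a : ℤ × ℤ → ℂ} (h : Adm K V Ω a) {k0 : ℤ × ℤ} (hk0 : k0 ∈ Ω) {L : ℕ}
    (hL : ∀ k ∈ Ω, |k.1 - k0.1| ≤ L ∧ |k.2 - k0.2| ≤ L) (hLK : (L : ℝ) ≤ K / 10 ^ 11) :
    ‖S2 Ω a (Dz us (phs R c))‖ ≤ (2 * L + 1) * ((1 + 2 * L * V) * (3000 / Lam K R us)) := by
  classical
  have hK0 : 0 < K := by linarith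
  have hlen : us.length = 5 := by rw [hus]; rfl
  set D : ℝ := 8 * (K / 10 ^ 11) with hD
  have hD1 : D ≤ K / 2 := by
    rw [hD]
    linarith
  have hKe : 10 ≤ K / 10 ^ 11 := by
    rw [le_div_iff₀ (by positivity)]
    linarith
  have hp : K ≤ (cz k0).re := (h.reg k0 hk0).1
  have hk : ∀ k ∈ Ω, ‖cz k - cz k0‖ + 2 + sn (us.map cz) ≤ D := by
    intro k hk
    have h1 := norm_cz_le92 (hL k hk).1 (hL k hk).2
    rw [hD]
    linarith
  set P : ℝ := pr (us.map cz) / K ^ 5 with hP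
  have hP0 : 0 < P := by positivity
  set Λ : ℝ := Lam K R us with hLam
  have hΛe : Λ = R * P := rfl
  have hΛ0 : 0 < Λ := by
    rw [hΛe]
    positivity
  set X : ℂ := Dv 1 0 (us.map cz) (cz k0) with hX
  -- the lower bound for `X`
  have hXlow : P / 243 ≤ ‖X‖ := by
    have a1 := h.reg k0 hk0
    have a2 : (cz k0).re = (k0.1 : ℝ) := rfl
    have a3 : (cz k0).im = (k0.2 : ℝ) := rfl
    have h1 := low5 (w₁ := cz w₁) (w₂ := cz w₂) (w₃ := cz w₃) (w₄ := cz w₄) (v := cz v) (q := cz k0)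
      (by show ((v.1 : ℤ) : ℝ) = 0; rw [hv]; simp) (by linarith) (by rw [a2, a3, abs_of_nonneg a1.2.2.1]; linarith)
    have h2 : us.map cz = [cz w₁, cz w₂, cz w₃, cz w₄, cz v] := by rw [hus]; rfl
    rw [← h2] at h1
    refine le_trans ?_ h1
    have h3 : ‖cz k0‖ ≤ 3 * K := by
      have h4 : ‖cz k0‖ ^ 2 ≤ (3 * K) ^ 2 := by
        rw [← Complex.normSq_eq_norm_sq, Complex.normSq_apply, a2, a3]
        have h5 : (k0.2 : ℝ) * k0.2 ≤ (2 * K) * (2 * K) := mul_self_le_mul_self a1.2.2.1 (by linarith)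
        have h6 : (k0.1 : ℝ) * k0.1 ≤ (2 * K) * (2 * K) := mul_self_le_mul_self (by linarith) (by linarith)
        nlinarith
      exact (pow_le_pow_iff_left₀ (norm_nonneg _) (by positivity) two_ne_zero).1 h4
    have h4 : 0 < ‖cz k0‖ := by
      have h5 : K ≤ ‖cz k0‖ := hp.trans ((le_abs_self _).trans (Complex.abs_re_le_norm _))
      linarith
    have h5 : ‖cz k0‖ * (‖cz k0‖⁻¹) ^ 6 = (‖cz k0‖⁻¹) ^ 5 := by
      rw [pow_succ (‖cz k0‖⁻¹) 5]
      field_simp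
    rw [h5]
    have h6 : ((3 * K)⁻¹) ^ 5 ≤ (‖cz k0‖⁻¹) ^ 5 :=
      pow_le_pow_left₀ (by positivity) ((inv_le_inv₀ (by positivity) h4).2 h3) 5
    calc P / 243 = pr (us.map cz) * ((3 * K)⁻¹) ^ 5 := by
          rw [hP, inv_pow, mul_pow]
          field_simp
          norm_num
      _ ≤ _ := mul_le_mul_of_nonneg_left h6 hpr.le
  have hvar : 7529536 * (D / K) * P ≤ P / 972 := by
    have e : 7529536 * (D / K) = 7529536 * 8 / 10 ^ 11 := by
      rw [hD]
      field_simp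
    rw [e]
    have : (7529536 : ℝ) * 8 / 10 ^ 11 ≤ 1 / 972 := by norm_num
    calc _ ≤ 1 / 972 * P := mul_le_mul_of_nonneg_right this hP0.le
      _ = _ := by ring
  -- direction
  obtain ⟨z, hz, hz1, hzl⟩ : ∃ z : ℤ × ℤ, (z = (1, 0) ∨ z = (0, 1)) ∧ ‖cz z‖ = 1 ∧ P / 486 ≤ |(cz z * X).re| := by
    have h1 : ‖X‖ ≤ |X.re| + |X.im| := Complex.norm_le_abs_re_add_abs_im _
    have e1 : cz (1, 0) = 1 := by apply Complex.ext <;> simp [cz]
    have e2 : cz (0, 1) = Complex.I := by apply Complex.ext <;> simp [cz]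
    rcases le_total (P / 486) |X.re| with h2 | h2
    · refine ⟨(1, 0), Or.inl rfl, ?_, ?_⟩
      · rw [e1]
        simp
      · rw [e1, one_mul]
        exact h2
    · refine ⟨(0, 1), Or.inr rfl, ?_, ?_⟩
      · rw [e2]
        simp
      · rw [e2]
        simp only [Complex.mul_re, Complex.I_re, Complex.I_im, zero_mul, one_mul, zero_sub, abs_neg]
        linarith
  -- the differences of the phase
  set g : ℤ × ℤ → ℝ := Dz us (phs R c) with hg
  have hgd : ∀ k, g (k + z) - g k = R * Dz (z :: us) nk k := by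
    intro k
    have := Dz_phs (z :: us) R c (by simp [hlen]) k
    exact this
  have hgdd : ∀ k, (g (k + z + z) - g (k + z)) - (g (k + z) - g k) = R * Dz (z :: z :: us) nk k := by
    intro k
    have := Dz_phs (z :: z :: us) R c (by simp [hlen]) k
    exact this
  have hlo : ∀ k ∈ Ω, Λ / 1000 ≤ |g (k + z) - g k| := by
    intro k hkΩ
    rw [hgd, abs_mul, abs_of_pos hR, hΛe, mul_div_assoc]
    refine mul_le_mul_of_nonneg_left ?_ hR.le
    have h1 := first_diff hK0 hD1 hp hlen hz1 (k := k) (by linarith [hk k hkΩ])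
    have h2 := abs_sub_abs_le_abs_sub (cz z * X).re (Dz (z :: us) nk k)
    rw [abs_sub_comm (cz z * X).re] at h2
    have h3 : P / 486 - P / 972 = P / 972 := by ring
    have h4 : P / 1000 ≤ P / 972 := div_le_div_of_nonneg_left hP0.le (by norm_num) (by norm_num)
    linarith
  have hup : ∀ k ∈ Ω, |g (k + z) - g k| ≤ 1 / 2 := by
    intro k hkΩ
    rw [hgd, abs_mul, abs_of_pos hR]
    have h1 := first_up hK0 hD1 hp hlen hz1 (k := k) (by linarith [hk k hkΩ])
    calc R * |Dz (z :: us) nk k| ≤ R * (1492992 * P) := mul_le_mul_of_nonneg_left h1 hR.le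
      _ = 1492992 * Λ := by rw [hΛe]; ring
      _ ≤ 1492992 * (1 / 4000000) := by gcongr
      _ ≤ _ := by norm_num
  have hse : ∀ k ∈ Ω, |(g (k + z + z) - g (k + z)) - (g (k + z) - g k)| ≤ 52706752 * (Λ / K) := by
    intro k hkΩ
    rw [hgdd, abs_mul, abs_of_pos hR]
    have h1 := second_up hK0 hD1 hp hlen hz1 (k := k) (by linarith [hk k hkΩ])
    calc R * |Dz (z :: z :: us) nk k| ≤ R * (52706752 * (pr (us.map cz) / K ^ 6)) := mul_le_mul_of_nonneg_left h1 hR.le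
      _ = 52706752 * (Λ / K) := by
        rw [hΛe, hP]
        field_simp
  have hθ : 0 < Λ / 1000 := by positivity
  have hθ1 : Λ / 1000 ≤ 1 / 2 := by linarith
  have hM : (1 + ((2 * L : ℕ) : ℝ) * V) * (1 / (Λ / 1000) * (1 + ((2 * L : ℕ) : ℝ) * (52706752 * (Λ / K)) / (Λ / 1000))) ≤
      (1 + 2 * L * V) * (3000 / Λ) := by
    push_cast
    have h1 : 2 * (L : ℝ) * (52706752 * (Λ / K)) / (Λ / 1000) = 105413504000 * L / K := by
      field_simp
      ring
    have h2 : 105413504000 * (L : ℝ) / K ≤ 2 := by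
      rw [div_le_iff₀ hK0]
      have h3 : (L : ℝ) * 10 ^ 11 ≤ K := by rwa [le_div_iff₀ (by positivity)] at hLK
      linarith
    rw [h1]
    refine mul_le_mul_of_nonneg_left ?_ (by positivity)
    have h4 : 1 / (Λ / 1000) = 1000 / Λ := by field_simp
    rw [h4]
    calc 1000 / Λ * (1 + 105413504000 * (L : ℝ) / K) ≤ 1000 / Λ * (1 + 2) := by gcongr
      _ = _ := by ring
  unfold S2
  rcases hz with rfl | rfl
  · refine rows (y0 := k0.2) _ (fun k hk => (hL k hk).2) (fun y => ?_)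
    refine le_trans ?_ hM
    have hI : ∀ x, x ∈ (Ω.filter (fun k => k.2 = y)).image Prod.fst ↔ (x, y) ∈ Ω := by
      intro x
      simp only [Finset.mem_image, Finset.mem_filter]
      constructor
      · rintro ⟨k, ⟨a1, a2⟩, a3⟩
        have : k = (x, y) := Prod.ext a3 a2
        rwa [← this]
      · intro h1
        exact ⟨(x, y), ⟨h1, rfl⟩, rfl⟩
    have e1 : ∀ x, ((x + 1, y) : ℤ × ℤ) = (x, y) + (1, 0) := fun x => by simp
    have e2 : ∀ x, ((x + 2, y) : ℤ × ℤ) = (x, y) + (1, 0) + (1, 0) := fun x => by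
      apply Prod.ext
      · simp; ring
      · simp
    refine row_sum hθ hθ1 (by positivity) hV _ ?_ ?_ (fun x => a (x, y)) (fun x => g (x, y)) ?_ ?_ ?_ ?_ ?_
    · intro x hx x' hx' t h1 h2
      rw [hI] at *
      exact h.row x x' t y hx hx' h1 h2
    · intro x hx x' hx'
      rw [hI] at *
      have b1 := abs_le.1 (hL _ hx).1
      have b2 := abs_le.1 (hL _ hx').1
      push_cast
      simp only at b1 b2
      linarith
    · intro t ht
      rw [hI] at ht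
      exact h.one _ ht
    · intro t ht ht'
      rw [hI] at ht ht'
      rw [e1] at ht' ⊢
      exact h.v1 _ ht ht'
    · intro t ht _
      rw [hI] at ht
      rw [e1]
      exact hlo _ ht
    · intro t ht _
      rw [hI] at ht
      rw [e1]
      exact hup _ ht
    · intro t ht _ _
      rw [hI] at ht
      rw [e1, e2]
      exact hse _ ht
  · refine cols (x0 := k0.1) _ (fun k hk => (hL k hk).1) (fun x => ?_)
    refine le_trans ?_ hM
    have hI : ∀ y, y ∈ (Ω.filter (fun k => k.1 = x)).image Prod.snd ↔ (x, y) ∈ Ω := by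
      intro y
      simp only [Finset.mem_image, Finset.mem_filter]
      constructor
      · rintro ⟨k, ⟨a1, a2⟩, a3⟩
        have : k = (x, y) := Prod.ext a2 a3
        rwa [← this]
      · intro h1
        exact ⟨(x, y), ⟨h1, rfl⟩, rfl⟩
    have e1 : ∀ y, ((x, y + 1) : ℤ × ℤ) = (x, y) + (0, 1) := fun y => by simp
    have e2 : ∀ y, ((x, y + 2) : ℤ × ℤ) = (x, y) + (0, 1) + (0, 1) := fun y => by
      apply Prod.ext
      · simp
      · simp; ring
    refine row_sum hθ hθ1 (by positivity) hV _ ?_ ?_ (fun y => a (x, y)) (fun y => g (x, y)) ?_ ?_ ?_ ?_ ?_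
    · intro y hy y' hy' t h1 h2
      rw [hI] at *
      exact h.col x y y' t hy hy' h1 h2
    · intro y hy y' hy'
      rw [hI] at *
      have b1 := abs_le.1 (hL _ hy).2
      have b2 := abs_le.1 (hL _ hy').2
      push_cast
      simp only at b1 b2
      linarith
    · intro t ht
      rw [hI] at ht
      exact h.one _ ht
    · intro t ht ht'
      rw [hI] at ht ht'
      rw [e1] at ht' ⊢
      exact h.v2 _ ht ht'
    · intro t ht _
      rw [hI] at ht
      rw [e1]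
      exact hlo _ ht
    · intro t ht _
      rw [hI] at ht
      rw [e1]
      exact hup _ ht
    · intro t ht _ _
      rw [hI] at ht
      rw [e1, e2]
      exact hse _ ht

open Classical in
private lemma Adm_box92 {K V : ℝ} {Ω : Finset (ℤ × ℤ)} {a : ℤ × ℤ → ℂ} (h : Adm K V Ω a) {L : ℤ} (hL : 0 < L) (b : ℤ × ℤ) :
    Adm K V (Ω.filter (fun k => (k.1 / L, k.2 / L) = b)) a := by
  have hmon : ∀ {x z x' i : ℤ}, x / L = i → x' / L = i → x ≤ z → z ≤ x' → z / L = i := by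
    intro x z x' i h1 h2 h3 h4
    exact le_antisymm (h2 ▸ Int.ediv_le_ediv hL h4) (h1 ▸ Int.ediv_le_ediv hL h3)
  refine ⟨?_, ?_, ?_, ?_, ?_, ?_⟩
  · intro k hk
    exact h.reg k (Finset.mem_filter.1 hk).1
  · intro x x' z y h1 h2 h3 h4
    obtain ⟨a1, a2⟩ := Finset.mem_filter.1 h1
    obtain ⟨b1, b2⟩ := Finset.mem_filter.1 h2
    refine Finset.mem_filter.2 ⟨h.row x x' z y a1 b1 h3 h4, ?_⟩
    rw [Prod.ext_iff] at a2 b2 ⊢
    exact ⟨hmon a2.1 b2.1 h3 h4, a2.2⟩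
  · intro x y y' z h1 h2 h3 h4
    obtain ⟨a1, a2⟩ := Finset.mem_filter.1 h1
    obtain ⟨b1, b2⟩ := Finset.mem_filter.1 h2
    refine Finset.mem_filter.2 ⟨h.col x y y' z a1 b1 h3 h4, ?_⟩
    rw [Prod.ext_iff] at a2 b2 ⊢
    exact ⟨a2.1, hmon a2.2 b2.2 h3 h4⟩
  · intro k hk
    exact h.one k (Finset.mem_filter.1 hk).1
  · intro k hk hk1
    exact h.v1 k (Finset.mem_filter.1 hk).1 (Finset.mem_filter.1 hk1).1
  · intro k hk hk1
    exact h.v2 k (Finset.mem_filter.1 hk).1 (Finset.mem_filter.1 hk1).1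

/-- **the octant after five differences** -/
theorem final : ∃ C : ℝ, 0 < C ∧ ∀ (K R V : ℝ) (c : ℝ × ℝ) (w₁ w₂ w₃ w₄ v : ℤ × ℤ) (us : List (ℤ × ℤ)), us = [w₁, w₂, w₃, w₄, v] →
    10 ^ 12 ≤ K → 0 < R → 0 ≤ V → v.1 = 0 → 0 < pr (us.map cz) → sn (us.map cz) ≤ 5 * (K / 10 ^ 11) → Lam K R us ≤ 1 / 4000000 →
    ∀ (Ω : Finset (ℤ × ℤ)) (a : ℤ × ℤ → ℂ), Adm K V Ω a →
      ‖S2 Ω a (Dz us (phs R c))‖ ≤ C * ((1 + K * V) * (K / Lam K R us)) := by
  classical
  refine ⟨(4 * 10 ^ 11 + 1) ^ 2 * 9000, by positivity, ?_⟩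
  intro K R V c w₁ w₂ w₃ w₄ v us hus hK hR hV hv hpr hsn hΛ Ω a h
  have hK0 : 0 < K := by linarith
  have hKe : 10 ≤ K / 10 ^ 11 := by
    rw [le_div_iff₀ (by positivity)]
    linarith
  have hΛ0 : 0 < Lam K R us := by
    unfold Lam
    positivity
  set L : ℕ := ⌊K / 10 ^ 11⌋₊ with hL
  have hL1 : (L : ℝ) ≤ K / 10 ^ 11 := Nat.floor_le (by positivity)
  have hL2 : K / 10 ^ 11 / 2 ≤ L := by
    have := Nat.sub_one_lt_floor (K / 10 ^ 11)
    rw [← hL] at this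
    linarith
  have hL0 : (0 : ℝ) < L := by linarith
  have hLn : (0 : ℤ) < L := by exact_mod_cast hL0
  obtain ⟨N, hN⟩ : ∃ N : ℕ, (N : ℝ) = 4 * 10 ^ 11 := ⟨4 * 10 ^ 11, by norm_num⟩
  have hidx : ∀ k ∈ Ω, (k.1 / (L : ℤ), k.2 / (L : ℤ)) ∈ Icc (0 : ℤ) (N : ℤ) ×ˢ Icc (0 : ℤ) (N : ℤ) := by
    intro k hk
    have h1 := h.reg k hk
    have h2 : (k.1 : ℝ) ≤ N * L := by
      rw [hN]
      have h3 : K ≤ 2 * 10 ^ 11 * L := by
        have := hL2
        rw [div_div, div_le_iff₀ (by positivity)] at this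
        linarith
      linarith
    have h3 : k.1 ≤ N * L := by exact_mod_cast h2
    have h4 : (0 : ℝ) ≤ k.1 := by linarith
    have h5 : 0 ≤ k.1 := by exact_mod_cast h4
    have h6 : 0 ≤ k.2 := by exact_mod_cast h1.2.2.1
    have h7 : k.2 ≤ k.1 := by exact_mod_cast h1.2.2.2
    have h8 : ∀ t : ℤ, t ≤ N * L → t / L ≤ N := by
      intro t ht
      have := Int.ediv_le_ediv hLn ht
      rwa [Int.mul_ediv_cancel _ hLn.ne'] at this
    rw [mem_product, mem_Icc, mem_Icc]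
    exact ⟨⟨Int.ediv_nonneg h5 hLn.le, h8 _ h3⟩, ⟨Int.ediv_nonneg h6 hLn.le, h8 _ (h7.trans h3)⟩⟩
  have hsum : S2 Ω a (Dz us (phs R c)) = ∑ b ∈ Icc (0 : ℤ) (N : ℤ) ×ˢ Icc (0 : ℤ) (N : ℤ),
      S2 (Ω.filter (fun k => (k.1 / (L : ℤ), k.2 / (L : ℤ)) = b)) a (Dz us (phs R c)) := by
    unfold S2
    exact (Finset.sum_fiberwise_of_maps_to hidx _).symm
  rw [hsum]
  refine (norm_sum_le _ _).trans ?_
  have hM : ∀ b ∈ Icc (0 : ℤ) (N : ℤ) ×ˢ Icc (0 : ℤ) (N : ℤ), ‖S2 (Ω.filter (fun k => (k.1 / (L : ℤ), k.2 / (L : ℤ)) = b)) a (Dz us (phs R c))‖ ≤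
      9000 * ((1 + K * V) * (K / Lam K R us)) := by
    intro b _
    rcases (Ω.filter (fun k => (k.1 / (L : ℤ), k.2 / (L : ℤ)) = b)).eq_empty_or_nonempty with he | ⟨k0, hk0⟩
    · rw [he]
      unfold S2
      rw [sum_empty, norm_zero]
      positivity
    have hcl : ∀ {x y i : ℤ}, x / (L : ℤ) = i → y / (L : ℤ) = i → |x - y| ≤ L := by
      intro x y i h1 h2
      have a1 := Int.mul_ediv_add_emod x L
      have a2 := Int.mul_ediv_add_emod y L
      rw [h1] at a1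
      rw [h2] at a2
      have a3 := Int.emod_nonneg x hLn.ne'
      have a4 := Int.emod_lt_of_pos x hLn
      have a5 := Int.emod_nonneg y hLn.ne'
      have a6 := Int.emod_lt_of_pos y hLn
      rw [abs_le]
      constructor <;> linarith
    have h1 := piece (c := c) hus hK hR hV hv hpr hsn hΛ (Adm_box92 h hLn b) hk0 (L := L) (fun k hk => by
      obtain ⟨_, a1⟩ := Finset.mem_filter.1 hk
      obtain ⟨_, a2⟩ := Finset.mem_filter.1 hk0
      rw [Prod.ext_iff] at a1 a2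
      exact ⟨hcl a1.1 a2.1, hcl a1.2 a2.2⟩) hL1
    refine h1.trans ?_
    have h2 : (2 : ℝ) * L + 1 ≤ K := by
      have : K / 10 ^ 11 ≤ K / 10 := div_le_div_of_nonneg_left hK0.le (by norm_num) (by norm_num)
      linarith
    have h3 : 1 + 2 * L * V ≤ 1 + K * V := by
      have : 2 * (L : ℝ) * V ≤ K * V := mul_le_mul_of_nonneg_right (by linarith) hV
      linarith
    calc (2 * (L : ℝ) + 1) * ((1 + 2 * L * V) * (3000 / Lam K R us)) ≤ K * ((1 + K * V) * (3000 / Lam K R us)) := by gcongr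
      _ = 3000 * ((1 + K * V) * (K / Lam K R us)) := by ring
      _ ≤ 9000 * ((1 + K * V) * (K / Lam K R us)) := by
        gcongr
        norm_num
  refine (Finset.sum_le_card_nsmul _ _ _ hM).trans ?_
  rw [nsmul_eq_mul, card_product, Int.card_Icc]
  have e : ((N : ℤ) + 1 - 0).toNat = N + 1 := by omega
  rw [e]
  push_cast
  rw [hN]
  refine le_of_eq ?_
  ring

end Pool.Agent.Helper92.TD
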