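import Pool.Agent.Helper92.TD.Step

/-!
# Project TD (MP_fb29e9_nt): the induction over the two-dimensional steps

`ind`: after `5 - j` differences, `j` two-dimensional steps. `vert`: the first, vertical step.
-/

set_option autoImplicit false

namespace Pool.Agent.Helper92.TD

open Finset
open Pool.Agent.Helper22.AE
open Pool.Agent.Helper92.GC

/-- the diagonal terms -/
noncomputable def Ed : List ℕ → ℝ
  | [] => 0
  | H :: Hs => 1 / (H : ℝ) ^ (2 ^ (Hs.length + 1)) + Ed Hs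

/-- the product of the lengths -/
noncomputable def PH (Hs : List ℕ) : ℝ := (Hs.map (fun H => (H : ℝ))).prod

lemma PH_nil : PH [] = 1 := by simp [PH]
lemma PH_cons (H : ℕ) (Hs : List ℕ) : PH (H :: Hs) = H * PH Hs := by simp [PH]

lemma Ed_nonneg (Hs : List ℕ) : 0 ≤ Ed Hs := by
  induction Hs with
  | nil => exact le_rfl
  | cons H Hs ih =>
    rw [Ed]
    positivity

lemma PH_pos {Hs : List ℕ} (h : ∀ H ∈ Hs, 1 ≤ H) : 0 < PH Hs := by
  induction Hs with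
  | nil =>
    rw [PH_nil]
    exact one_pos
  | cons H Hs ih =>
    rw [PH_cons]
    have h1 := h H List.mem_cons_self
    have h2 := ih (fun H' h' => h H' (List.mem_cons_of_mem _ h'))
    have h3 : (0 : ℝ) < H := by exact_mod_cast h1
    positivity

lemma Lam_cons (K R : ℝ) (w : ℤ × ℤ) (us : List (ℤ × ℤ)) : Lam K R (w :: us) = ‖cz w‖ * Lam K R us := by
  unfold Lam
  rw [List.map_cons, pr_cons]
  ring

lemma box_card92 {K : ℝ} (hK : 10 ≤ K) : ((Icc (-(⌈K⌉₊ : ℤ)) (2 * ⌈K⌉₊) ×ˢ Icc (-(⌈K⌉₊ : ℤ)) (2 * ⌈K⌉₊)).card : ℝ) ≤ 64 * K ^ 2 := by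
  have h1 := (Nat.ceil_lt_add_one (show 0 ≤ K by linarith)).le
  rw [card_product, Int.card_Icc]
  have h2 : ((2 * (⌈K⌉₊ : ℤ) + 1 - -(⌈K⌉₊ : ℤ)).toNat : ℕ) = 3 * ⌈K⌉₊ + 1 := by omega
  rw [h2]
  push_cast
  have h3 : 3 * (⌈K⌉₊ : ℝ) + 1 ≤ 8 * K := by linarith
  calc (3 * (⌈K⌉₊ : ℝ) + 1) * (3 * (⌈K⌉₊ : ℝ) + 1) ≤ (8 * K) * (8 * K) := by gcongr
    _ = _ := by ring

lemma reg_box92 {K V : ℝ} (hK : 10 ≤ K) {Ω : Finset (ℤ × ℤ)} {a : ℤ × ℤ → ℂ} (h : Adm K V Ω a) {H : ℕ} (hH : (H : ℝ) ≤ K) {k u : ℤ × ℤ} (hk : k ∈ Ω)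
    (hu1 : 0 ≤ u.1) (hu2 : u.1 < H ∨ u.1 = 0) (hu3 : 0 ≤ u.2) (hu4 : u.2 < H) :
    k - u ∈ Icc (-(⌈K⌉₊ : ℤ)) (2 * ⌈K⌉₊) ×ˢ Icc (-(⌈K⌉₊ : ℤ)) (2 * ⌈K⌉₊) := by
  have h1 := h.reg k hk
  have h2 := Nat.le_ceil K
  have h3 : (k.1 : ℝ) ≤ ((2 * (⌈K⌉₊ : ℤ) : ℤ) : ℝ) := by
    push_cast
    linarith
  have h4 : k.1 ≤ 2 * (⌈K⌉₊ : ℤ) := by exact_mod_cast h3
  have h5 : 0 ≤ k.2 := by exact_mod_cast h1.2.2.1
  have h6 : k.2 ≤ k.1 := by exact_mod_cast h1.2.2.2
  have h7 : (H : ℤ) ≤ (⌈K⌉₊ : ℤ) := by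
    have : (H : ℝ) ≤ (⌈K⌉₊ : ℝ) := hH.trans h2
    exact_mod_cast this
  have h8 : (0 : ℝ) ≤ k.1 := by linarith
  have h9 : 0 ≤ k.1 := by exact_mod_cast h8
  rw [mem_product, mem_Icc, mem_Icc, Prod.fst_sub, Prod.snd_sub]
  rcases hu2 with h10 | h10 <;> omega

lemma card_le92 {K V : ℝ} (hK : 10 ≤ K) {Ω : Finset (ℤ × ℤ)} {a : ℤ × ℤ → ℂ} (h : Adm K V Ω a) : (Ω.card : ℝ) ≤ 64 * K ^ 2 := by
  refine le_trans ?_ (box_card92 hK)
  have : Ω ⊆ Icc (-(⌈K⌉₊ : ℤ)) (2 * ⌈K⌉₊) ×ˢ Icc (-(⌈K⌉₊ : ℤ)) (2 * ⌈K⌉₊) := by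
    intro k hk
    have := reg_box92 hK h (H := 1) (u := 0) (by push_cast; linarith) hk le_rfl (Or.inr rfl) le_rfl (by simp)
    rwa [sub_zero] at this
  exact_mod_cast Finset.card_le_card this

theorem ind (W : ℝ) (hW : 0 ≤ W) (j : ℕ) : j ≤ 4 → ∃ C : ℝ, 1 ≤ C ∧ ∀ (K R V : ℝ) (c : ℝ × ℝ) (ws : List (ℤ × ℤ)) (v : ℤ × ℤ)
    (Hs : List ℕ), Hs.length = j → ws.length + j = 4 → 10 ^ 12 ≤ K → 0 < R → 0 ≤ V → K * V * 2 ^ j ≤ W → v.1 = 0 →
    0 < pr ((ws ++ [v]).map cz) → (∀ u ∈ ws ++ [v], ‖cz u‖ ≤ K / 10 ^ 11) → (∀ H ∈ Hs, 1 ≤ H ∧ 2 * (H : ℝ) ≤ K / 10 ^ 11) →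
    Lam K R (ws ++ [v]) * (2 ^ j * PH Hs) ≤ 1 / 4000000 →
    ∀ (Ω : Finset (ℤ × ℤ)) (a : ℤ × ℤ → ℂ), Adm K V Ω a →
      (‖S2 Ω a (Dz (ws ++ [v]) (phs R c))‖ / K ^ 2) ^ (2 ^ j) ≤ C * (Ed Hs + 1 / (K * Lam K R (ws ++ [v]) * PH Hs)) := by
  induction j with
  | zero =>
    intro _
    obtain ⟨C, hC, hf⟩ := final
    refine ⟨C * (1 + W) + 1, by nlinarith [mul_nonneg hC.le (by linarith : 0 ≤ 1 + W)], ?_⟩
    intro K R V c ws v Hs hHs hws hK hR hV hKV hv hpr hsm _ hΛ Ω a h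
    have hK0 : 0 < K := by linarith
    have hHs' : Hs = [] := List.eq_nil_of_length_eq_zero hHs
    subst hHs'
    rw [pow_zero, one_mul, PH_nil, mul_one] at hΛ
    rw [pow_zero, mul_one] at hKV
    obtain ⟨w₁, w₂, w₃, w₄, rfl⟩ : ∃ w₁ w₂ w₃ w₄ : ℤ × ℤ, ws = [w₁, w₂, w₃, w₄] := by
      match ws, hws with
      | [w₁, w₂, w₃, w₄], _ => exact ⟨w₁, w₂, w₃, w₄, rfl⟩
    have hsn : sn (([w₁, w₂, w₃, w₄] ++ [v]).map cz) ≤ 5 * (K / 10 ^ 11) := by
      have a1 := hsm w₁ (by simp)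
      have a2 := hsm w₂ (by simp)
      have a3 := hsm w₃ (by simp)
      have a4 := hsm w₄ (by simp)
      have a5 := hsm v (by simp)
      simp only [List.cons_append, List.nil_append, List.map_cons, List.map_nil, sn_cons, sn_nil]
      linarith
    have h1 := hf K R V c w₁ w₂ w₃ w₄ v ([w₁, w₂, w₃, w₄] ++ [v]) rfl hK hR hV hv hpr hsn hΛ Ω a h
    have hΛ0 : 0 < Lam K R ([w₁, w₂, w₃, w₄] ++ [v]) := by
      unfold Lam
      positivity
    rw [pow_zero, pow_one, PH_nil, mul_one, Ed, zero_add, div_le_iff₀ (by positivity)]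
    set Λ := Lam K R ([w₁, w₂, w₃, w₄] ++ [v])
    refine h1.trans ?_
    have h2 : C * ((1 + K * V) * (K / Λ)) ≤ C * ((1 + W) * (K / Λ)) := by gcongr
    refine h2.trans ?_
    have h3 : (C * (1 + W) + 1) * (1 / (K * Λ)) * K ^ 2 = (C * (1 + W) + 1) * (K / Λ) := by
      field_simp
    rw [h3]
    have h4 : 0 ≤ K / Λ := by positivity
    nlinarith
  | succ j ih =>
    intro hj
    obtain ⟨C, hC, hI⟩ := ih (by omega)
    set m : ℕ := 2 ^ j with hm
    have hm1 : 1 ≤ m := Nat.one_le_two_pow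
    refine ⟨2 ^ m * (4096 ^ m + 12 * 256 ^ m * C), ?_, ?_⟩
    · have h1 : (1 : ℝ) ≤ 2 ^ m := one_le_pow₀ (by norm_num)
      have h2 : (1 : ℝ) ≤ 4096 ^ m := one_le_pow₀ (by norm_num)
      have h3 : (0 : ℝ) ≤ 12 * 256 ^ m * C := by positivity
      nlinarith
    intro K R V c ws v Hs hHs hws hK hR hV hKV hv hpr hsm hH hΛ Ω a h
    have hK0 : 0 < K := by linarith
    have hK10 : 10 ≤ K := by linarith
    obtain ⟨H, Hs, rfl⟩ : ∃ H Hs', Hs = H :: Hs' := by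
      match Hs, hHs with
      | H :: Hs', _ => exact ⟨H, Hs', rfl⟩
    rw [List.length_cons] at hHs
    have hHs' : Hs.length = j := by omega
    obtain ⟨hH1, hH2⟩ := hH H List.mem_cons_self
    have hHt : ∀ H' ∈ Hs, 1 ≤ H' ∧ 2 * (H' : ℝ) ≤ K / 10 ^ 11 := fun H' h' => hH H' (List.mem_cons_of_mem _ h')
    have hH0 : (0 : ℝ) < H := by exact_mod_cast hH1
    have hHK : (H : ℝ) ≤ K := by
      have : K / 10 ^ 11 ≤ K := div_le_self hK0.le (by norm_num)
      linarith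
    have hPH := PH_pos (fun H' h' => (hHt H' h').1)
    have hΛ0 : 0 < Lam K R (ws ++ [v]) := by
      unfold Lam
      positivity
    set Λ := Lam K R (ws ++ [v]) with hΛd
    rw [PH_cons] at hΛ ⊢
    have hkey := step_gen (K := K) (Ω := Ω) (U := Ico (0 : ℤ) H ×ˢ Ico (0 : ℤ) H) (D := D2 H)
      (B := Icc (-(⌈K⌉₊ : ℤ)) (2 * ⌈K⌉₊) ×ˢ Icc (-(⌈K⌉₊ : ℤ)) (2 * ⌈K⌉₊)) a (Dz (ws ++ [v]) (phs R c)) hm1 hK0
      (fun u hu u' hu' => by
        rw [mem_product, mem_Ico, mem_Ico] at hu hu'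
        unfold D2
        rw [mem_product, mem_Ioo, mem_Ioo, Prod.fst_sub, Prod.snd_sub]
        omega)
      (fun k hk u hu => by
        rw [mem_product, mem_Ico, mem_Ico] at hu
        exact reg_box92 hK10 h hHK hk hu.1.1 (Or.inl hu.1.2) hu.2.1 hu.2.2)
      (n := (H : ℝ) ^ 2) (by positivity) (by
        rw [card_product, Int.card_Ico]
        push_cast
        simp
        ring)
      (box_card92 hK10) (by
        have h1 : ((D2 H).erase 0).card ≤ (D2 H).card := Finset.card_erase_le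
        have h2 : (D2 H).card ≤ (2 * H) * (2 * H) := by
          unfold D2
          rw [card_product, Int.card_Ioo]
          have : ((H : ℤ) - -(H : ℤ) - 1).toNat ≤ 2 * H := by omega
          exact Nat.mul_le_mul this this
        have h3 : (((D2 H).erase 0).card : ℝ) ≤ (((2 * H) * (2 * H) : ℕ) : ℝ) := by exact_mod_cast h1.trans h2
        refine h3.trans_eq ?_
        push_cast
        ring)
      (card_le92 hK10 h) h.one
    have e2 : (‖S2 Ω a (Dz (ws ++ [v]) (phs R c))‖ / K ^ 2) ^ (2 ^ (j + 1)) =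
        ((‖S2 Ω a (Dz (ws ++ [v]) (phs R c))‖ / K ^ 2) ^ 2) ^ m := by
      rw [← pow_mul, hm, pow_succ]
      congr 1
      ring
    rw [e2]
    refine hkey.trans ?_
    have hterm : ∀ w ∈ (D2 H).erase 0, (‖S2 (sh Ω w) (aw a w) (fw (Dz (ws ++ [v]) (phs R c)) w)‖ / K ^ 2) ^ m ≤
        C * Ed Hs + C / (K * Λ * PH Hs) * (1 / ‖cz w‖) := by
      intro w hw
      obtain ⟨hw0, hw1⟩ := Finset.mem_erase.1 hw
      have hwn := cz_ne_zero92 hw0
      have hw2 : ‖cz w‖ ≤ 2 * H := by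
        unfold D2 at hw1
        rw [mem_product, mem_Ioo, mem_Ioo] at hw1
        refine (Complex.norm_le_abs_re_add_abs_im _).trans ?_
        have a1 : |(cz w).re| ≤ H := by
          show |(w.1 : ℝ)| ≤ H
          rw [abs_le]
          constructor
          · have : -(H : ℤ) ≤ w.1 := hw1.1.1.le
            exact_mod_cast this
          · have : w.1 ≤ (H : ℤ) := hw1.1.2.le
            exact_mod_cast this
        have a2 : |(cz w).im| ≤ H := by
          show |(w.2 : ℝ)| ≤ H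
          rw [abs_le]
          constructor
          · have : -(H : ℤ) ≤ w.2 := hw1.2.1.le
            exact_mod_cast this
          · have : w.2 ≤ (H : ℤ) := hw1.2.2.le
            exact_mod_cast this
        linarith
      have h1 := hI K R (2 * V) c (w :: ws) v Hs hHs' (by rw [List.length_cons]; omega) hK hR (by positivity)
        (by
          calc K * (2 * V) * 2 ^ j = K * V * 2 ^ (j + 1) := by ring
            _ ≤ W := hKV)
        hv (by
          rw [List.cons_append, List.map_cons, pr_cons]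
          exact mul_pos hwn hpr)
        (by
          intro u hu
          rw [List.cons_append, List.mem_cons] at hu
          rcases hu with rfl | hu
          · linarith
          · exact hsm u hu)
        hHt (by
          rw [List.cons_append, Lam_cons, ← hΛd]
          calc ‖cz w‖ * Λ * (2 ^ j * PH Hs) ≤ (2 * H) * Λ * (2 ^ j * PH Hs) := by gcongr
            _ = Λ * (2 ^ (j + 1) * (H * PH Hs)) := by ring
            _ ≤ _ := hΛ)
        (sh Ω w) (aw a w) (h.sh w)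
      rw [fw_Dz]
      rw [List.cons_append, Lam_cons, ← hΛd] at h1
      refine h1.trans_eq ?_
      field_simp
    have hsum : ∑ w ∈ (D2 H).erase 0, (‖S2 (sh Ω w) (aw a w) (fw (Dz (ws ++ [v]) (phs R c)) w)‖ / K ^ 2) ^ m ≤
        (4 * (H : ℝ) ^ 2) * (C * Ed Hs) + C / (K * Λ * PH Hs) * (12 * H) := by
      refine (Finset.sum_le_sum hterm).trans ?_
      rw [Finset.sum_add_distrib, Finset.sum_const, nsmul_eq_mul, ← Finset.mul_sum]
      have hE := Ed_nonneg Hs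
      have h2 : (((D2 H).erase 0).card : ℝ) ≤ 4 * (H : ℝ) ^ 2 := by
        have h1 : ((D2 H).erase 0).card ≤ (D2 H).card := Finset.card_erase_le
        have h2 : (D2 H).card ≤ (2 * H) * (2 * H) := by
          unfold D2
          rw [card_product, Int.card_Ioo]
          have : ((H : ℤ) - -(H : ℤ) - 1).toNat ≤ 2 * H := by omega
          exact Nat.mul_le_mul this this
        have h3 : (((D2 H).erase 0).card : ℝ) ≤ (((2 * H) * (2 * H) : ℕ) : ℝ) := by exact_mod_cast h1.trans h2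
        refine h3.trans_eq ?_
        push_cast
        ring
      have h3 := sum_inv2 H
      gcongr
    have hE := Ed_nonneg Hs
    rw [Ed, hHs']
    calc 2 ^ m * ((4096 / (H : ℝ) ^ 2) ^ m + 256 ^ m / (H : ℝ) ^ 2 *
          ∑ w ∈ (D2 H).erase 0, (‖S2 (sh Ω w) (aw a w) (fw (Dz (ws ++ [v]) (phs R c)) w)‖ / K ^ 2) ^ m)
        ≤ 2 ^ m * ((4096 / (H : ℝ) ^ 2) ^ m + 256 ^ m / (H : ℝ) ^ 2 *
          ((4 * (H : ℝ) ^ 2) * (C * Ed Hs) + C / (K * Λ * PH Hs) * (12 * H))) := by gcongr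
      _ = 2 ^ m * (4096 ^ m * (1 / (H : ℝ) ^ (2 ^ (j + 1))) + 256 ^ m * C * (4 * Ed Hs + 12 * (1 / (K * Λ * (H * PH Hs))))) := by
        have e3 : (4096 / (H : ℝ) ^ 2) ^ m = 4096 ^ m * (1 / (H : ℝ) ^ (2 ^ (j + 1))) := by
          rw [div_pow, ← pow_mul, hm, show 2 * 2 ^ j = 2 ^ (j + 1) by ring]
          ring
        rw [e3]
        field_simp
      _ ≤ _ := by
        have a1 : 0 ≤ 1 / (H : ℝ) ^ (2 ^ (j + 1)) := by positivity
        have a2 : 0 ≤ 1 / (K * Λ * (H * PH Hs)) := by positivity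
        set A := 1 / (H : ℝ) ^ (2 ^ (j + 1))
        set B := 1 / (K * Λ * (H * PH Hs))
        have b1 : (0 : ℝ) ≤ 4096 ^ m := by positivity
        have b2 : (0 : ℝ) ≤ 256 ^ m * C := by positivity
        rw [mul_assoc (2 ^ m)]
        refine mul_le_mul_of_nonneg_left ?_ (by positivity)
        nlinarith [mul_nonneg b1 hE, mul_nonneg b1 a2, mul_nonneg b2 a1, mul_nonneg b2 hE]

/-- **the first, vertical step** -/
theorem vert (W : ℝ) (hW : 0 ≤ W) : ∃ C : ℝ, 1 ≤ C ∧ ∀ (K R V : ℝ) (c : ℝ × ℝ) (H₁ : ℕ) (Hs : List ℕ), Hs.length = 4 →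
    10 ^ 12 ≤ K → 0 < R → 0 ≤ V → K * V * 32 ≤ W → 1 ≤ H₁ → (H₁ : ℝ) ≤ K / 10 ^ 11 → (∀ H ∈ Hs, 1 ≤ H ∧ 2 * (H : ℝ) ≤ K / 10 ^ 11) →
    R / K ^ 5 * (16 * (H₁ * PH Hs)) ≤ 1 / 4000000 → ∀ (Ω : Finset (ℤ × ℤ)) (a : ℤ × ℤ → ℂ), Adm K V Ω a →
      (‖S2 Ω a (phs R c)‖ / K ^ 2) ^ 32 ≤ C * (1 / (H₁ : ℝ) ^ 16 + Ed Hs + (1 + Real.log H₁) / (K * (R / K ^ 5) * (H₁ * PH Hs))) := by
  obtain ⟨C, hC, hI⟩ := ind W hW 4 le_rfl
  refine ⟨2 ^ 16 * (4096 ^ 16 + 4 * 256 ^ 16 * C), by nlinarith, ?_⟩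
  intro K R V c H Hs hHs hK hR hV hKV hH1 hH2 hH hΛ Ω a h
  have hK0 : 0 < K := by linarith
  have hK10 : 10 ≤ K := by linarith
  have hH0 : (0 : ℝ) < H := by exact_mod_cast hH1
  have hHK : (H : ℝ) ≤ K := by
    have : K / 10 ^ 11 ≤ K := div_le_self hK0.le (by norm_num)
    linarith
  have hPH := PH_pos (fun H' h' => (hH H' h').1)
  set y : ℝ := R / K ^ 5 with hy
  have hy0 : 0 < y := by positivity
  have hkey := step_gen (K := K) (Ω := Ω) (U := ({0} : Finset ℤ) ×ˢ Ico (0 : ℤ) H) (D := D1 H)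
    (B := Icc (-(⌈K⌉₊ : ℤ)) (2 * ⌈K⌉₊) ×ˢ Icc (-(⌈K⌉₊ : ℤ)) (2 * ⌈K⌉₊)) a (phs R c) (m := 16) (by norm_num) hK0
    (fun u hu u' hu' => by
      rw [mem_product, mem_singleton, mem_Ico] at hu hu'
      unfold D1
      rw [mem_product, mem_singleton, mem_Ioo, Prod.fst_sub, Prod.snd_sub]
      omega)
    (fun k hk u hu => by
      rw [mem_product, mem_singleton, mem_Ico] at hu
      exact reg_box92 hK10 h hHK hk hu.1.ge (Or.inr hu.1) hu.2.1 hu.2.2)
    (n := (H : ℝ)) hH0 (by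
      rw [card_product, Int.card_Ico, card_singleton]
      simp)
    (box_card92 hK10) (by
      have h1 : ((D1 H).erase 0).card ≤ (D1 H).card := Finset.card_erase_le
      have h2 : (D1 H).card ≤ 4 * H := by
        unfold D1
        rw [card_product, Int.card_Ioo, card_singleton, one_mul]
        omega
      exact_mod_cast h1.trans h2)
    (card_le92 hK10 h) h.one
  rw [← pow_mul, show 2 * 16 = 32 from rfl] at hkey
  refine hkey.trans ?_
  have hterm : ∀ w ∈ (D1 H).erase 0, (‖S2 (sh Ω w) (aw a w) (fw (phs R c) w)‖ / K ^ 2) ^ 16 ≤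
      C * Ed Hs + C / (K * y * PH Hs) * (1 / ‖cz w‖) := by
    intro w hw
    obtain ⟨hw0, hw1⟩ := Finset.mem_erase.1 hw
    have hwn := cz_ne_zero92 hw0
    unfold D1 at hw1
    rw [mem_product, mem_singleton, mem_Ioo] at hw1
    have hw2 : ‖cz w‖ ≤ H := by
      refine (Complex.norm_le_abs_re_add_abs_im _).trans ?_
      have a1 : |(cz w).re| = 0 := by
        show |(w.1 : ℝ)| = 0
        rw [hw1.1]
        simp
      have a2 : |(cz w).im| ≤ H := by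
        show |(w.2 : ℝ)| ≤ H
        rw [abs_le]
        constructor
        · have : -(H : ℤ) ≤ w.2 := hw1.2.1.le
          exact_mod_cast this
        · have : w.2 ≤ (H : ℤ) := hw1.2.2.le
          exact_mod_cast this
      linarith
    have eΛ : Lam K R ([] ++ [w]) = ‖cz w‖ * y := by
      unfold Lam
      simp only [List.nil_append, List.map_cons, List.map_nil, pr_cons, pr_nil, mul_one]
      rw [hy]
      ring
    have h1 := hI K R (2 * V) c [] w Hs hHs (by simp) hK hR (by positivity)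
      (by
        calc K * (2 * V) * 2 ^ 4 = K * V * 32 := by ring
          _ ≤ W := hKV)
      hw1.1 (by
        simp only [List.nil_append, List.map_cons, List.map_nil, pr_cons, pr_nil, mul_one]
        exact hwn)
      (by
        intro u hu
        simp only [List.nil_append, List.mem_singleton] at hu
        rw [hu]
        linarith)
      hH (by
        rw [eΛ]
        calc ‖cz w‖ * y * (2 ^ 4 * PH Hs) ≤ H * y * (2 ^ 4 * PH Hs) := by gcongr
          _ = y * (16 * (H * PH Hs)) := by ring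
          _ ≤ _ := hΛ)
      (sh Ω w) (aw a w) (h.sh w)
    rw [eΛ] at h1
    have e1 : fw (phs R c) w = Dz ([] ++ [w]) (phs R c) := rfl
    rw [e1]
    norm_num only at h1
    refine h1.trans_eq ?_
    field_simp
  have hsum : ∑ w ∈ (D1 H).erase 0, (‖S2 (sh Ω w) (aw a w) (fw (phs R c) w)‖ / K ^ 2) ^ 16 ≤
      (4 * (H : ℝ)) * (C * Ed Hs) + C / (K * y * PH Hs) * (2 * (1 + Real.log H)) := by
    refine (Finset.sum_le_sum hterm).trans ?_
    rw [Finset.sum_add_distrib, Finset.sum_const, nsmul_eq_mul, ← Finset.mul_sum]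
    have hE := Ed_nonneg Hs
    have h2 : (((D1 H).erase 0).card : ℝ) ≤ 4 * (H : ℝ) := by
      have h1 : ((D1 H).erase 0).card ≤ (D1 H).card := Finset.card_erase_le
      have h2 : (D1 H).card ≤ 4 * H := by
        unfold D1
        rw [card_product, Int.card_Ioo, card_singleton, one_mul]
        omega
      exact_mod_cast h1.trans h2
    have h3 := sum_inv1 hH1
    gcongr
  have hE := Ed_nonneg Hs
  have hlog : 0 ≤ Real.log H := Real.log_nonneg (by exact_mod_cast hH1)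
  calc 2 ^ 16 * ((4096 / (H : ℝ)) ^ 16 + 256 ^ 16 / (H : ℝ) *
        ∑ w ∈ (D1 H).erase 0, (‖S2 (sh Ω w) (aw a w) (fw (phs R c) w)‖ / K ^ 2) ^ 16)
      ≤ 2 ^ 16 * ((4096 / (H : ℝ)) ^ 16 + 256 ^ 16 / (H : ℝ) *
        ((4 * (H : ℝ)) * (C * Ed Hs) + C / (K * y * PH Hs) * (2 * (1 + Real.log H)))) := by gcongr
    _ = 2 ^ 16 * (4096 ^ 16 * (1 / (H : ℝ) ^ 16) + 256 ^ 16 * C * (4 * Ed Hs + 2 * ((1 + Real.log H) / (K * y * (H * PH Hs))))) := by
      rw [div_pow]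
      field_simp
    _ ≤ _ := by
      have a1 : 0 ≤ 1 / (H : ℝ) ^ 16 := by positivity
      have a2 : 0 ≤ (1 + Real.log H) / (K * y * (H * PH Hs)) := by positivity
      set A := 1 / (H : ℝ) ^ 16
      set B := (1 + Real.log H) / (K * y * (H * PH Hs))
      rw [mul_assoc (2 ^ 16)]
      refine mul_le_mul_of_nonneg_left ?_ (by positivity)
      have b2 : (0 : ℝ) ≤ 256 ^ 16 * C := by positivity
      nlinarith [mul_nonneg b2 a1, mul_nonneg b2 hE, mul_nonneg b2 a2]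

end Pool.Agent.Helper92.TD
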