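import Pool.Agent.Helper92.TD.Vdc
import Pool.Agent.Helper92.OV6.Line

/-!
# Project TD (MP_fb29e9_nt): Kuzmin-Landau on lines

`kl`: differences between `θ` and `1/2` in absolute value, second differences at most `τ`. `klw`: with a weight. `row_sum`: the sum over a
convex set of integers. `rows`, `cols`: sums over sets with convex rows (columns).
-/

set_option autoImplicit false

namespace Pool.Agent.Helper92.TD

open Finset
open Pool.Agent.Helper22.AE
open Pool.Agent.Helper92.GC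

lemma norm_ee_sub_one92 (x : ℝ) (hx : |x| ≤ 1 / 2) : 4 * |x| ≤ ‖ee x - 1‖ := by
  have h1 : ‖ee x - 1‖ = 2 * |Real.sin (Real.pi * x)| := by
    unfold ee
    have h2 := Complex.norm_exp_I_mul_ofReal_sub_one (2 * Real.pi * x)
    rw [show Complex.I * ((2 * Real.pi * x : ℝ) : ℂ) = ((2 * Real.pi * x : ℝ) : ℂ) * Complex.I by ring] at h2
    rw [h2, Real.norm_eq_abs, abs_mul, abs_two]
    congr 3
    ring
  rw [h1]
  have h3 : 2 / Real.pi * |Real.pi * x| ≤ |Real.sin (Real.pi * x)| := by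
    refine Real.mul_abs_le_abs_sin ?_
    rw [abs_mul, abs_of_pos Real.pi_pos]
    nlinarith [Real.pi_pos]
  rw [abs_mul, abs_of_pos Real.pi_pos] at h3
  have h4 : 2 / Real.pi * (Real.pi * |x|) = 2 * |x| := by
    field_simp [Real.pi_pos.ne']
  linarith

lemma norm_ee_sub92 (x y : ℝ) : ‖ee x - ee y‖ ≤ 7 * |x - y| := by
  have h1 : ee x - ee y = ee y * (ee (x - y) - 1) := by
    rw [mul_sub, ← ee_add, mul_one]
    congr 2
    ring
  rw [h1, norm_mul, ee_norm, one_mul]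
  unfold ee
  have h2 := Complex.norm_exp_I_mul_ofReal_sub_one (2 * Real.pi * (x - y))
  rw [show Complex.I * ((2 * Real.pi * (x - y) : ℝ) : ℂ) = ((2 * Real.pi * (x - y) : ℝ) : ℂ) * Complex.I by ring] at h2
  rw [h2, Real.norm_eq_abs, abs_mul, abs_two]
  have h3 : |Real.sin (2 * Real.pi * (x - y) / 2)| ≤ |2 * Real.pi * (x - y) / 2| := Real.abs_sin_le_abs
  have h4 : |2 * Real.pi * (x - y) / 2| = Real.pi * |x - y| := by
    rw [show 2 * Real.pi * (x - y) / 2 = Real.pi * (x - y) by ring, abs_mul, abs_of_pos Real.pi_pos]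
  have h5 : Real.pi ≤ 7 / 2 := by
    have := Real.pi_lt_d2
    linarith
  rw [h4] at h3
  have h6 : Real.pi * |x - y| ≤ 7 / 2 * |x - y| := mul_le_mul_of_nonneg_right h5 (abs_nonneg _)
  linarith

theorem kl {θ τ : ℝ} {x : ℕ → ℝ} {N : ℕ} (hθ : 0 < θ) (hθ1 : θ ≤ 1 / 2) (h1 : ∀ n < N, θ ≤ |x (n + 1) - x n|)
    (h2 : ∀ n < N, |x (n + 1) - x n| ≤ 1 / 2)
    (h3 : ∀ n, n + 1 < N → |(x (n + 2) - x (n + 1)) - (x (n + 1) - x n)| ≤ τ) (hτ : 0 ≤ τ) :
    ‖∑ n ∈ range (N + 1), ee (x n)‖ ≤ 1 / θ * (1 + N * τ / θ) := by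
  have hlow : ∀ n < N, 4 * θ ≤ ‖ee (x (n + 1) - x n) - 1‖ := fun n hn =>
    (mul_le_mul_of_nonneg_left (h1 n hn) (by norm_num)).trans (norm_ee_sub_one92 _ (h2 n hn))
  have hne : ∀ n < N, ee (x (n + 1) - x n) - 1 ≠ 0 := by
    intro n hn h
    have := hlow n hn
    rw [h, norm_zero] at this
    linarith
  set c : ℕ → ℂ := fun n => (ee (x (n + 1) - x n) - 1)⁻¹ with hc
  have hcn : ∀ n < N, ‖c n‖ ≤ 1 / (4 * θ) := by
    intro n hn
    rw [hc]
    simp only
    rw [norm_inv, ← one_div]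
    exact one_div_le_one_div_of_le (by positivity) (hlow n hn)
  have hcd : ∀ n, n + 1 < N → ‖c n - c (n + 1)‖ ≤ τ / (2 * θ ^ 2) := by
    intro n hn
    have a1 := hne n (by omega)
    have a2 := hne (n + 1) hn
    have e : c n - c (n + 1) = (ee (x (n + 1 + 1) - x (n + 1)) - ee (x (n + 1) - x n)) * (c n * c (n + 1)) := by
      rw [hc]
      simp only
      field_simp
      ring
    rw [e, norm_mul, norm_mul]
    have b1 := norm_ee_sub92 (x (n + 1 + 1) - x (n + 1)) (x (n + 1) - x n)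
    have b2 := h3 n hn
    have b3 : ‖c n‖ * ‖c (n + 1)‖ ≤ 1 / (4 * θ) * (1 / (4 * θ)) :=
      mul_le_mul (hcn n (by omega)) (hcn (n + 1) hn) (norm_nonneg _) (by positivity)
    calc ‖ee (x (n + 1 + 1) - x (n + 1)) - ee (x (n + 1) - x n)‖ * (‖c n‖ * ‖c (n + 1)‖)
        ≤ (7 * τ) * (1 / (4 * θ) * (1 / (4 * θ))) := by
          refine mul_le_mul (b1.trans (mul_le_mul_of_nonneg_left b2 (by norm_num))) b3 (by positivity) (by positivity)
      _ = 7 / 8 * (τ / (2 * θ ^ 2)) := by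
        field_simp
        ring
      _ ≤ 1 * (τ / (2 * θ ^ 2)) := by
        refine mul_le_mul_of_nonneg_right (by norm_num) (by positivity)
      _ = _ := one_mul _
  have hstep : ∀ n < N, ee (x n) = c n * (ee (x (n + 1)) - ee (x n)) := by
    intro n hn
    have e : ee (x (n + 1)) = ee (x (n + 1) - x n) * ee (x n) := by
      rw [← ee_add]
      congr 1
      ring
    rw [e, hc]
    simp only
    field_simp [hne n hn]
  have key : ∀ m, m < N → ‖∑ n ∈ range (m + 1), ee (x n) - (c m * ee (x (m + 1)) - c 0 * ee (x 0))‖ ≤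
      m * (τ / (2 * θ ^ 2)) := by
    intro m
    induction m with
    | zero =>
      intro hN
      have e : ∑ n ∈ range (0 + 1), ee (x n) - (c 0 * ee (x (0 + 1)) - c 0 * ee (x 0)) = 0 := by
        rw [zero_add, sum_range_one]
        nth_rewrite 1 [hstep 0 hN]
        ring
      rw [e]
      simp
    | succ m ih =>
      intro hm
      have e : ∑ n ∈ range (m + 1 + 1), ee (x n) - (c (m + 1) * ee (x (m + 1 + 1)) - c 0 * ee (x 0)) =
          (∑ n ∈ range (m + 1), ee (x n) - (c m * ee (x (m + 1)) - c 0 * ee (x 0))) +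
            (c m - c (m + 1)) * ee (x (m + 1)) := by
        rw [sum_range_succ _ (m + 1)]
        have h4 := hstep (m + 1) hm
        linear_combination h4
      rw [e]
      refine (norm_add_le _ _).trans ?_
      rw [norm_mul, ee_norm, mul_one]
      have h4 := ih (by omega)
      have h5 := hcd m hm
      push_cast
      linarith
  rcases Nat.eq_zero_or_pos N with rfl | hN
  · simp only [zero_add, sum_range_one, ee_norm, Nat.cast_zero, zero_mul, zero_div, add_zero, mul_one]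
    rw [le_div_iff₀ hθ]
    linarith
  obtain ⟨m, rfl⟩ : ∃ m, N = m + 1 := ⟨N - 1, by omega⟩
  have h4 := key m (by omega)
  have h5 := hcn m (by omega)
  have h6 := hcn 0 (by omega)
  rw [sum_range_succ]
  have e : ∑ n ∈ range (m + 1), ee (x n) + ee (x (m + 1)) =
      (∑ n ∈ range (m + 1), ee (x n) - (c m * ee (x (m + 1)) - c 0 * ee (x 0))) + c m * ee (x (m + 1)) - c 0 * ee (x 0) +
        ee (x (m + 1)) := by ring
  rw [e]
  have h7 : ‖c m * ee (x (m + 1))‖ ≤ 1 / (4 * θ) := by rw [norm_mul, ee_norm, mul_one]; exact h5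
  have h8 : ‖c 0 * ee (x 0)‖ ≤ 1 / (4 * θ) := by rw [norm_mul, ee_norm, mul_one]; exact h6
  have h9 : (1 : ℝ) ≤ 1 / (2 * θ) := by
    rw [le_div_iff₀ (by positivity)]
    linarith
  have h10 : 1 / (4 * θ) + 1 / (4 * θ) + 1 / (2 * θ) = 1 / θ := by
    field_simp
    norm_num
  have h11 : ((m : ℝ)) * (τ / (2 * θ ^ 2)) ≤ 1 / θ * (((m + 1 : ℕ) : ℝ) * τ / θ) := by
    have h12 : 1 / θ * (((m + 1 : ℕ) : ℝ) * τ / θ) = ((m : ℝ) + 1) * τ / θ ^ 2 := by
      push_cast
      field_simp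
    rw [h12, ← mul_div_assoc, div_le_div_iff₀ (by positivity) (by positivity)]
    have h13 : 0 ≤ (m : ℝ) * τ := by positivity
    have h14 : 0 ≤ τ * θ ^ 2 := by positivity
    have h15 : 0 ≤ (m : ℝ) * τ * θ ^ 2 := by positivity
    nlinarith
  calc _ ≤ ‖∑ n ∈ range (m + 1), ee (x n) - (c m * ee (x (m + 1)) - c 0 * ee (x 0))‖ + ‖c m * ee (x (m + 1))‖ +
        ‖c 0 * ee (x 0)‖ + ‖ee (x (m + 1))‖ := by
        refine (norm_add_le _ _).trans (add_le_add_left ?_ _)
        refine (norm_sub_le _ _).trans (add_le_add_left ?_ _)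
        exact norm_add_le _ _
    _ ≤ _ := by
      rw [ee_norm, _root_.mul_add, mul_one]
      linarith

/-- the weighted version, over a convex set of integers -/
theorem row_sum {θ τ V : ℝ} {L : ℕ} (hθ : 0 < θ) (hθ1 : θ ≤ 1 / 2) (hτ : 0 ≤ τ) (hV : 0 ≤ V) (I : Finset ℤ)
    (hI : ∀ x ∈ I, ∀ y ∈ I, ∀ z, x ≤ z → z ≤ y → z ∈ I) (hL : ∀ x ∈ I, ∀ y ∈ I, y - x ≤ L) (A : ℤ → ℂ) (G : ℤ → ℝ)
    (hA : ∀ t ∈ I, ‖A t‖ ≤ 1) (hA' : ∀ t ∈ I, t + 1 ∈ I → ‖A (t + 1) - A t‖ ≤ V)
    (h1 : ∀ t ∈ I, t + 1 ∈ I → θ ≤ |G (t + 1) - G t|) (h2 : ∀ t ∈ I, t + 1 ∈ I → |G (t + 1) - G t| ≤ 1 / 2)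
    (h3 : ∀ t ∈ I, t + 1 ∈ I → t + 2 ∈ I → |(G (t + 2) - G (t + 1)) - (G (t + 1) - G t)| ≤ τ) :
    ‖∑ t ∈ I, A t * ee (G t)‖ ≤ (1 + L * V) * (1 / θ * (1 + L * τ / θ)) := by
  rcases I.eq_empty_or_nonempty with rfl | hne
  · rw [sum_empty, norm_zero]
    positivity
  set m : ℤ := I.min' hne with hm
  set M : ℤ := I.max' hne with hM
  have hmI : m ∈ I := I.min'_mem hne
  have hMI : M ∈ I := I.max'_mem hne
  have hmM : m ≤ M := I.min'_le _ hMI
  obtain ⟨n, hn⟩ : ∃ n : ℕ, M = m + n := ⟨(M - m).toNat, by omega⟩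
  have hnL : n ≤ L := by
    have := hL m hmI M hMI
    omega
  have hIe : ∀ t, t ∈ I ↔ m ≤ t ∧ t ≤ m + n := by
    intro t
    constructor
    · intro ht
      refine ⟨I.min'_le _ ht, ?_⟩
      rw [← hn]
      exact I.le_max' _ ht
    · rintro ⟨a1, a2⟩
      exact hI m hmI M hMI t a1 (by rw [hn]; exact a2)
  have hmem : ∀ j : ℕ, j ≤ n → m + j ∈ I := fun j hj => (hIe _).2 ⟨by omega, by omega⟩
  have hsum : ∑ t ∈ I, A t * ee (G t) = ∑ j ∈ Ico 0 (0 + n + 1), A (m + j) * ee (G (m + j)) := by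
    refine Finset.sum_nbij' (fun t => (t - m).toNat) (fun j => m + j) ?_ ?_ ?_ ?_ ?_
    · intro t ht
      have := (hIe t).1 ht
      rw [mem_Ico]
      omega
    · intro j hj
      rw [mem_Ico] at hj
      exact hmem j (by omega)
    · intro t ht
      have := (hIe t).1 ht
      omega
    · intro j _
      simp
    · intro t ht
      have := (hIe t).1 ht
      have e : m + ((t - m).toNat : ℤ) = t := by omega
      simp only [e]
  rw [hsum]
  have hmain := Pool.Agent.Helper92.OV6.abel_bv (fun j : ℕ => A (m + j)) (fun j : ℕ => ee (G (m + j))) (a := 0)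
    (M := 1 / θ * (1 + L * τ / θ)) (V := V) (B := 1) n (fun j _ hj => hA _ (hmem j (by omega)))
    (fun j _ hj => by
      have := hA' (m + j) (hmem j (by omega)) (by
        have := hmem (j + 1) (by omega)
        push_cast at this
        rwa [← add_assoc] at this)
      push_cast
      rwa [← add_assoc])
    (fun b hb1 hb2 => by
      rcases Nat.eq_zero_or_pos b with rfl | hb
      · simp only [Ico_self, sum_empty, norm_zero]
        positivity
      obtain ⟨N, rfl⟩ : ∃ N, b = N + 1 := ⟨b - 1, by omega⟩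
      rw [← range_eq_Ico]
      have hN : N ≤ n := by omega
      have hcast : ∀ j : ℕ, m + ((j + 1 : ℕ) : ℤ) = m + j + 1 := fun j => by push_cast; ring
      have hcast2 : ∀ j : ℕ, m + ((j + 2 : ℕ) : ℤ) = m + j + 2 := fun j => by push_cast; ring
      have h4 := kl (x := fun j : ℕ => G (m + j)) (N := N) hθ hθ1 (fun j hj => by
          rw [hcast]
          exact h1 _ (hmem j (by omega)) (by rw [← hcast]; exact hmem _ (by omega)))
        (fun j hj => by
          rw [hcast]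
          exact h2 _ (hmem j (by omega)) (by rw [← hcast]; exact hmem _ (by omega)))
        (fun j hj => by
          rw [hcast2 j, hcast j]
          exact h3 _ (hmem j (by omega)) (by rw [← hcast]; exact hmem _ (by omega))
            (by rw [← hcast2]; exact hmem _ (by omega))) hτ
      refine h4.trans ?_
      have hNL : (N : ℝ) ≤ L := by exact_mod_cast hN.trans hnL
      gcongr)
  refine hmain.trans ?_
  have hnL' : (n : ℝ) ≤ L := by exact_mod_cast hnL
  gcongr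

open Classical in
/-- sums over a set with few rows -/
theorem rows {Ω : Finset (ℤ × ℤ)} (F : ℤ × ℤ → ℂ) {M : ℝ} {y0 : ℤ} {L : ℕ} (hy : ∀ k ∈ Ω, |k.2 - y0| ≤ L)
    (h : ∀ y : ℤ, ‖∑ x ∈ (Ω.filter (fun k => k.2 = y)).image Prod.fst, F (x, y)‖ ≤ M) :
    ‖∑ k ∈ Ω, F k‖ ≤ (2 * L + 1) * M := by
  have h1 : ∑ k ∈ Ω, F k = ∑ y ∈ Icc (y0 - L) (y0 + L), ∑ k ∈ Ω.filter (fun k => k.2 = y), F k := by
    refine (Finset.sum_fiberwise_of_maps_to (fun k hk => ?_) _).symm
    have := abs_le.1 (hy k hk)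
    rw [mem_Icc]
    omega
  rw [h1]
  refine (norm_sum_le _ _).trans ?_
  have h2 : ∀ y ∈ Icc (y0 - (L : ℤ)) (y0 + L), ‖∑ k ∈ Ω.filter (fun k => k.2 = y), F k‖ ≤ M := by
    intro y _
    have h3 : ∑ k ∈ Ω.filter (fun k => k.2 = y), F k = ∑ x ∈ (Ω.filter (fun k => k.2 = y)).image Prod.fst, F (x, y) := by
      rw [Finset.sum_image]
      · refine Finset.sum_congr rfl fun k hk => ?_
        have := (Finset.mem_filter.1 hk).2
        rw [← this]
      · intro k hk l hl hkl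
        have a1 := (Finset.mem_filter.1 hk).2
        have a2 := (Finset.mem_filter.1 hl).2
        exact Prod.ext hkl (a1.trans a2.symm)
    rw [h3]
    exact h y
  refine (Finset.sum_le_card_nsmul _ _ M h2).trans ?_
  rw [nsmul_eq_mul, Int.card_Icc]
  have h4 : (y0 + (L : ℤ) + 1 - (y0 - L)).toNat = 2 * L + 1 := by omega
  rw [h4]
  push_cast
  exact le_refl _

open Classical in
/-- sums over a set with few columns -/
theorem cols {Ω : Finset (ℤ × ℤ)} (F : ℤ × ℤ → ℂ) {M : ℝ} {x0 : ℤ} {L : ℕ} (hy : ∀ k ∈ Ω, |k.1 - x0| ≤ L)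
    (h : ∀ x : ℤ, ‖∑ y ∈ (Ω.filter (fun k => k.1 = x)).image Prod.snd, F (x, y)‖ ≤ M) :
    ‖∑ k ∈ Ω, F k‖ ≤ (2 * L + 1) * M := by
  have h1 : ∑ k ∈ Ω, F k = ∑ x ∈ Icc (x0 - L) (x0 + L), ∑ k ∈ Ω.filter (fun k => k.1 = x), F k := by
    refine (Finset.sum_fiberwise_of_maps_to (fun k hk => ?_) _).symm
    have := abs_le.1 (hy k hk)
    rw [mem_Icc]
    omega
  rw [h1]
  refine (norm_sum_le _ _).trans ?_
  have h2 : ∀ x ∈ Icc (x0 - (L : ℤ)) (x0 + L), ‖∑ k ∈ Ω.filter (fun k => k.1 = x), F k‖ ≤ M := by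
    intro x _
    have h3 : ∑ k ∈ Ω.filter (fun k => k.1 = x), F k = ∑ y ∈ (Ω.filter (fun k => k.1 = x)).image Prod.snd, F (x, y) := by
      rw [Finset.sum_image]
      · refine Finset.sum_congr rfl fun k hk => ?_
        have := (Finset.mem_filter.1 hk).2
        rw [← this]
      · intro k hk l hl hkl
        have a1 := (Finset.mem_filter.1 hk).2
        have a2 := (Finset.mem_filter.1 hl).2
        exact Prod.ext (a1.trans a2.symm) hkl
    rw [h3]
    exact h x
  refine (Finset.sum_le_card_nsmul _ _ M h2).trans ?_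
  rw [nsmul_eq_mul, Int.card_Icc]
  have h4 : (x0 + (L : ℤ) + 1 - (x0 - L)).toNat = 2 * L + 1 := by omega
  rw [h4]
  push_cast
  exact le_refl _

end Pool.Agent.Helper92.TD
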