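import Pool.Agent.Helper92.TD.Ind
import Pool.Agent.Helper92.CX.Best

/-!
# Project TD (MP_fb29e9_nt): the bound for the octant sums

`td`: `|S| ≤ C K² (R / K⁵ + (1 + log K) / K)^(1/32)` if `K³ ≤ R ≤ K⁵`.
-/

set_option autoImplicit false

namespace Pool.Agent.Helper92.TD

open Finset
open Pool.Agent.Helper22.AE
open Pool.Agent.Helper92.GC
open Pool.Agent.Helper92.CX (le_nk_of_mem_oct oct_triv)

private lemma mem_oct92 {K : ℕ} {k : ℤ × ℤ} : k ∈ oct K ↔ (K : ℤ) ≤ k.1 ∧ k.1 < 2 * K ∧ 0 ≤ k.2 ∧ k.2 ≤ k.1 := by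
  unfold oct Pool.Agent.Helper22.AE.box
  rw [Finset.mem_filter, mem_product, mem_Icc, mem_Icc]
  push_cast
  constructor
  · rintro ⟨_, h⟩
    exact h
  · intro h
    refine ⟨?_, h⟩
    omega

private lemma nk_step92 (k z : ℤ × ℤ) (hz : ‖cz z‖ = 1) : |nk (k + z) - nk k| ≤ 1 := by
  unfold nk
  rw [cz_add]
  have := abs_norm_sub_norm_le (cz k + cz z) (cz k)
  rwa [add_sub_cancel_left, hz] at this

private lemma weight92 {K : ℕ} (hK : 1 ≤ K) {i : ℕ} (hi : i ≤ 2) {k l : ℤ × ℤ} (hk : k ∈ oct K) (hl : l ∈ oct K) (h : |nk l - nk k| ≤ 1) :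
    ‖(((K : ℝ) / nk l : ℝ) : ℂ) ^ i - (((K : ℝ) / nk k : ℝ) : ℂ) ^ i‖ ≤ 2 / K := by
  have hK0 : (0 : ℝ) < K := by exact_mod_cast hK
  have h1 := le_nk_of_mem_oct hk
  have h2 := le_nk_of_mem_oct hl
  have h3 : 0 < nk k := by linarith
  have h4 : 0 < nk l := by linarith
  set A : ℝ := (K : ℝ) / nk l with hA
  set B : ℝ := (K : ℝ) / nk k with hB
  have hA0 : 0 ≤ A := by positivity
  have hB0 : 0 ≤ B := by positivity
  have hA1 : A ≤ 1 := (div_le_one h4).2 h2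
  have hB1 : B ≤ 1 := (div_le_one h3).2 h1
  have hAB : |A - B| ≤ 1 / K := by
    have e : A - B = K * (nk k - nk l) / (nk l * nk k) := by
      rw [hA, hB]
      field_simp
    rw [e, abs_div, abs_mul, abs_of_pos hK0, abs_of_pos (mul_pos h4 h3), abs_sub_comm]
    rw [div_le_div_iff₀ (by positivity) hK0]
    have h5 : (K : ℝ) * K ≤ nk l * nk k := mul_le_mul h2 h1 hK0.le h4.le
    have h6 : (K : ℝ) * |nk l - nk k| * K ≤ (K : ℝ) * 1 * K := by gcongr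
    linarith
  have e : ((A : ℂ)) ^ i - ((B : ℂ)) ^ i = ((A ^ i - B ^ i : ℝ) : ℂ) := by push_cast; ring
  rw [e, Complex.norm_real, Real.norm_eq_abs]
  have h7 : (1 : ℝ) / K ≤ 2 / K := by
    gcongr
    norm_num
  interval_cases i
  · simp only [pow_zero, sub_self, abs_zero]
    positivity
  · rw [pow_one, pow_one]
    exact hAB.trans h7
  · have e2 : A ^ 2 - B ^ 2 = (A - B) * (A + B) := by ring
    rw [e2, abs_mul, abs_of_nonneg (by positivity : 0 ≤ A + B)]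
    calc |A - B| * (A + B) ≤ 1 / K * 2 := by
          refine mul_le_mul hAB (by linarith) (by positivity) (by positivity)
      _ = _ := by ring

theorem adm_oct {K : ℕ} (hK : 1 ≤ K) {i : ℕ} (hi : i ≤ 2) :
    Adm (K : ℝ) (2 / K) (oct K) (fun k => (((K : ℝ) / nk k : ℝ) : ℂ) ^ i) := by
  have e1 : ‖cz (1, 0)‖ = 1 := by
    have : cz (1, 0) = 1 := by apply Complex.ext <;> simp [cz]
    rw [this]
    simp
  have e2 : ‖cz (0, 1)‖ = 1 := by
    have : cz (0, 1) = Complex.I := by apply Complex.ext <;> simp [cz]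
    rw [this]
    simp
  refine ⟨?_, ?_, ?_, ?_, ?_, ?_⟩
  · intro k hk
    obtain ⟨h1, h2, h3, h4⟩ := mem_oct92.1 hk
    refine ⟨by exact_mod_cast h1, ?_, by exact_mod_cast h3, by exact_mod_cast h4⟩
    have : k.1 ≤ 2 * (K : ℤ) := h2.le
    exact_mod_cast this
  · intro x x' z y h1 h2 h3 h4
    rw [mem_oct92] at h1 h2 ⊢
    simp only at h1 h2 ⊢
    omega
  · intro x y y' z h1 h2 h3 h4
    rw [mem_oct92] at h1 h2 ⊢
    simp only at h1 h2 ⊢
    omega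
  · intro k hk
    have h1 := le_nk_of_mem_oct hk
    have hK0 : (0 : ℝ) < K := by exact_mod_cast hK
    have h3 : 0 < nk k := by linarith
    rw [norm_pow, Complex.norm_real, Real.norm_of_nonneg (by positivity)]
    exact pow_le_one₀ (by positivity) ((div_le_one h3).2 h1)
  · intro k hk hk1
    exact weight92 hK hi hk hk1 (nk_step92 k _ e1)
  · intro k hk hk1
    exact weight92 hK hi hk hk1 (nk_step92 k _ e2)

/-- **the two-dimensional sixth derivative test** -/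
theorem td : ∃ C : ℝ, 0 < C ∧ ∀ (K : ℕ) (R : ℝ), 1 ≤ K → (K : ℝ) ^ 3 ≤ R → R ≤ (K : ℝ) ^ 5 → ∀ i : ℕ, i ≤ 2 → ∀ c : ℝ × ℝ,
    ‖bs (oct K) K i R c‖ ≤ C * ((K : ℝ) ^ 2 * (R / (K : ℝ) ^ 5 + (1 + Real.log K) / K) ^ (1 / 32 : ℝ)) := by
  obtain ⟨C0, hC0, hv⟩ := vert 64 (by norm_num)
  obtain ⟨κ, hκ⟩ : ∃ κ : ℝ, κ = 1 / 10 ^ 12 := ⟨_, rfl⟩
  have hκ0 : 0 < κ := by rw [hκ]; positivity
  have hκ1 : κ ≤ 1 := by rw [hκ]; norm_num
  obtain ⟨A, hA⟩ : ∃ A : ℝ, A = 5 * C0 / κ ^ 16 := ⟨_, rfl⟩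
  have hA0 : 0 < A := by rw [hA]; positivity
  refine ⟨A ^ (1 / 32 : ℝ) + 25 * (1 / κ), by positivity, ?_⟩
  intro K R hK hR1 hR2 i hi c
  have hK1 : (1 : ℝ) ≤ K := by exact_mod_cast hK
  have hK0 : (0 : ℝ) < K := by linarith
  have hR0 : 0 < R := lt_of_lt_of_le (by positivity) hR1
  set y : ℝ := R / (K : ℝ) ^ 5 with hy
  have hy0 : 0 < y := by positivity
  have hy1 : y ≤ 1 := by
    rw [hy, div_le_one (by positivity)]
    exact hR2
  have hyK : 1 ≤ y * (K : ℝ) ^ 2 := by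
    rw [hy, div_mul_eq_mul_div, le_div_iff₀ (by positivity), one_mul]
    calc (K : ℝ) ^ 5 = (K : ℝ) ^ 3 * (K : ℝ) ^ 2 := by ring
      _ ≤ R * (K : ℝ) ^ 2 := by gcongr
  have hlogK : 0 ≤ Real.log K := Real.log_nonneg hK1
  set X : ℝ := y + (1 + Real.log K) / K with hX
  have hX0 : 0 < X := by positivity
  have hyX : y ≤ X := by
    rw [hX]
    have : 0 ≤ (1 + Real.log K) / K := by positivity
    linarith
  set Y : ℝ := X ^ (1 / 32 : ℝ) with hY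
  have hY0 : 0 < Y := Real.rpow_pos_of_pos hX0 _
  have hY32 : Y ^ 32 = X := by
    rw [hY, ← Real.rpow_natCast, ← Real.rpow_mul hX0.le]
    norm_num
  have hA32 : (A ^ (1 / 32 : ℝ)) ^ 32 = A := by
    rw [← Real.rpow_natCast, ← Real.rpow_mul hA0.le]
    norm_num
  have hS : bs (oct K) K i R c = S2 (oct K) (fun k => (((K : ℝ) / nk k : ℝ) : ℂ) ^ i) (phs R c) := rfl
  rcases le_total (κ ^ 16) y with hcase | hcase
  · -- trivial
    have h1 := oct_triv (i := i) (R := R) hK c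
    have h2 : κ ≤ Y := by
      refine (pow_le_pow_iff_left₀ hκ0.le hY0.le (show (32 : ℕ) ≠ 0 by norm_num)).1 ?_
      rw [hY32]
      refine le_trans ?_ (hcase.trans hyX)
      exact pow_le_pow_of_le_one hκ0.le hκ1 (by norm_num)
    have h3 : 25 * (K : ℝ) ^ 2 ≤ 25 * (1 / κ) * ((K : ℝ) ^ 2 * Y) := by
      have h4 : 1 ≤ 1 / κ * Y := by
        rw [one_div, inv_mul_eq_div, le_div_iff₀ hκ0, one_mul]
        exact h2
      calc 25 * (K : ℝ) ^ 2 = 25 * (K : ℝ) ^ 2 * 1 := by ring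
        _ ≤ 25 * (K : ℝ) ^ 2 * (1 / κ * Y) := by gcongr
        _ = _ := by ring
    have h4 : 0 ≤ A ^ (1 / 32 : ℝ) * ((K : ℝ) ^ 2 * Y) := by positivity
    rw [add_mul]
    linarith
  -- the main case
  set z : ℝ := (1 / y) ^ (1 / 16 : ℝ) with hz
  have hz0 : 0 < z := by positivity
  have hz16 : z ^ 16 = 1 / y := by
    rw [hz, ← Real.rpow_natCast, ← Real.rpow_mul (by positivity)]
    norm_num
  have hκz : 1 ≤ κ * z := by
    have h1 : (1 : ℝ) ^ 16 ≤ (κ * z) ^ 16 := by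
      rw [one_pow, mul_pow, hz16, mul_one_div, le_div_iff₀ hy0, one_mul]
      exact hcase
    exact (pow_le_pow_iff_left₀ zero_le_one (by positivity) (show (16 : ℕ) ≠ 0 by norm_num)).1 h1
  have hz1 : 1 ≤ z := by
    have : κ * z ≤ 1 * z := by gcongr
    linarith
  have hz8 : z ^ 8 ≤ K := by
    have h1 : (z ^ 8) ^ 2 ≤ (K : ℝ) ^ 2 := by
      rw [← pow_mul, hz16, div_le_iff₀ hy0]
      linarith
    exact (pow_le_pow_iff_left₀ (by positivity) hK0.le two_ne_zero).1 h1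
  -- lengths
  have hlen : ∀ e : ℕ, 1 ≤ e → e ≤ 8 → κ * z ^ e ≤ (⌈κ * z ^ e⌉₊ : ℝ) ∧ (⌈κ * z ^ e⌉₊ : ℝ) ≤ 2 * (κ * z ^ e) ∧ 1 ≤ ⌈κ * z ^ e⌉₊ ∧
      (⌈κ * z ^ e⌉₊ : ℝ) ≤ K / 10 ^ 11 ∧ 2 * (⌈κ * z ^ e⌉₊ : ℝ) ≤ K / 10 ^ 11 := by
    intro e he1 he8
    have h1 : κ * z ≤ κ * z ^ e := by
      refine mul_le_mul_of_nonneg_left ?_ hκ0.le
      calc z = z ^ 1 := (pow_one z).symm
        _ ≤ z ^ e := pow_le_pow_right₀ hz1 he1
    have h2 : 1 ≤ κ * z ^ e := hκz.trans h1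
    have h3 := (Nat.ceil_lt_add_one (show 0 ≤ κ * z ^ e by positivity)).le
    have h4 : z ^ e ≤ K := (pow_le_pow_right₀ hz1 he8).trans hz8
    have h5 : κ * z ^ e ≤ K / 10 ^ 12 := by
      rw [hκ]
      calc 1 / 10 ^ 12 * z ^ e ≤ 1 / 10 ^ 12 * K := by gcongr
        _ = _ := by ring
    have h6 : (K : ℝ) / 10 ^ 11 = 10 * (K / 10 ^ 12) := by ring
    refine ⟨Nat.le_ceil _, by linarith, Nat.one_le_ceil_iff.2 (by linarith), by linarith, by linarith⟩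
  obtain ⟨p1, p2, p3, p4, p5⟩ := hlen 1 (by norm_num) (by norm_num)
  obtain ⟨q1, q2, q3, q4, q5⟩ := hlen 2 (by norm_num) (by norm_num)
  obtain ⟨r1, r2, r3, r4, r5⟩ := hlen 4 (by norm_num) (by norm_num)
  obtain ⟨s1, s2, s3, s4, s5⟩ := hlen 8 (by norm_num) (by norm_num)
  set H1 : ℕ := ⌈κ * z ^ 1⌉₊ with hH1
  set H3 : ℕ := ⌈κ * z ^ 2⌉₊ with hH3
  set H4 : ℕ := ⌈κ * z ^ 4⌉₊ with hH4
  set H5 : ℕ := ⌈κ * z ^ 8⌉₊ with hH5
  have hKbig : (10 : ℝ) ^ 12 ≤ K := by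
    have h1 : 1 ≤ κ * z ^ 8 := hκz.trans (by
      refine mul_le_mul_of_nonneg_left ?_ hκ0.le
      calc z = z ^ 1 := (pow_one z).symm
        _ ≤ z ^ 8 := pow_le_pow_right₀ hz1 (by norm_num))
    have h2 : κ * z ^ 8 ≤ κ * K := by gcongr
    have h3 : 1 ≤ κ * K := h1.trans h2
    rw [hκ, one_div, inv_mul_eq_div, le_div_iff₀ (by positivity), one_mul] at h3
    exact h3
  have hPHe : PH [H1, H3, H4, H5] = H1 * (H3 * (H4 * H5)) := by
    simp [PH]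
  have b1 : (1 : ℝ) ≤ H1 := by exact_mod_cast p3
  have b3 : (1 : ℝ) ≤ H3 := by exact_mod_cast q3
  have b4 : (1 : ℝ) ≤ H4 := by exact_mod_cast r3
  have b5 : (1 : ℝ) ≤ H5 := by exact_mod_cast s3
  have hprod_up : (H1 : ℝ) * (H1 * (H3 * (H4 * H5))) ≤ 32 * κ ^ 5 * z ^ 16 := by
    calc (H1 : ℝ) * (H1 * (H3 * (H4 * H5))) ≤
        (2 * (κ * z ^ 1)) * ((2 * (κ * z ^ 1)) * ((2 * (κ * z ^ 2)) * ((2 * (κ * z ^ 4)) * (2 * (κ * z ^ 8))))) := by gcongr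
      _ = _ := by ring
  have hprod_lo : κ ^ 5 * z ^ 16 ≤ (H1 : ℝ) * (H1 * (H3 * (H4 * H5))) := by
    calc κ ^ 5 * z ^ 16 = (κ * z ^ 1) * ((κ * z ^ 1) * ((κ * z ^ 2) * ((κ * z ^ 4) * (κ * z ^ 8)))) := by ring
      _ ≤ _ := by gcongr
  have hmain := hv K R (2 / K) c H1 [H1, H3, H4, H5] rfl hKbig hR0 (by positivity) (by
      have : (K : ℝ) * (2 / K) = 2 := by field_simp
      rw [this]
      norm_num) p3 p4 (by
      intro H hH
      simp only [List.mem_cons, List.not_mem_nil, or_false] at hH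
      rcases hH with rfl | rfl | rfl | rfl
      · exact ⟨p3, p5⟩
      · exact ⟨q3, q5⟩
      · exact ⟨r3, r5⟩
      · exact ⟨s3, s5⟩) (by
      rw [hPHe, ← hy]
      have h1 : y * (16 * ((H1 : ℝ) * (H1 * (H3 * (H4 * H5))))) ≤ y * (16 * (32 * κ ^ 5 * z ^ 16)) := by gcongr
      refine h1.trans ?_
      rw [hz16]
      have h2 : y * (16 * (32 * κ ^ 5 * (1 / y))) = 512 * κ ^ 5 := by
        field_simp
        norm_num
      rw [h2, hκ]
      norm_num) (oct K) _ (adm_oct hK hi)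
  rw [← hS, hPHe, ← hy] at hmain
  have hEd : Ed [H1, H3, H4, H5] = 1 / (H1 : ℝ) ^ 16 + (1 / (H3 : ℝ) ^ 8 + (1 / (H4 : ℝ) ^ 4 + 1 / (H5 : ℝ) ^ 2)) := by
    simp only [Ed, List.length_cons, List.length_nil]
    norm_num
  have hone : ∀ (H e n : ℕ), κ * z ^ e ≤ (H : ℝ) → e * n = 16 → n ≤ 16 → 1 / (H : ℝ) ^ n ≤ y / κ ^ 16 := by
    intro H e n h1 h2 h3
    have h4 : (κ * z ^ e) ^ n ≤ (H : ℝ) ^ n := pow_le_pow_left₀ (by positivity) h1 n
    have h5 : (κ * z ^ e) ^ n = κ ^ n / y := by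
      rw [mul_pow, ← pow_mul, h2, hz16]
      ring
    rw [h5] at h4
    have h6 : κ ^ 16 ≤ κ ^ n := pow_le_pow_of_le_one hκ0.le hκ1 h3
    calc 1 / (H : ℝ) ^ n ≤ 1 / (κ ^ n / y) := one_div_le_one_div_of_le (by positivity) h4
      _ = y / κ ^ n := by field_simp
      _ ≤ y / κ ^ 16 := div_le_div_of_nonneg_left hy0.le (by positivity) h6
  have g1 := hone H1 1 16 p1 (by norm_num) (by norm_num)
  have g3 := hone H3 2 8 q1 (by norm_num) (by norm_num)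
  have g4 := hone H4 4 4 r1 (by norm_num) (by norm_num)
  have g5 := hone H5 8 2 s1 (by norm_num) (by norm_num)
  have hlast : (1 + Real.log H1) / (K * y * (H1 * (H1 * (H3 * (H4 * H5))))) ≤ ((1 + Real.log K) / K) / κ ^ 16 := by
    have h1 : (H1 : ℝ) ≤ K := by
      have : (K : ℝ) / 10 ^ 11 ≤ K := div_le_self hK0.le (by norm_num)
      linarith
    have h2 : Real.log H1 ≤ Real.log K := Real.log_le_log (by linarith) h1
    have h3 : K * κ ^ 5 ≤ (K : ℝ) * y * (H1 * (H1 * (H3 * (H4 * H5)))) := by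
      calc K * κ ^ 5 = K * y * (κ ^ 5 * z ^ 16) := by
            rw [hz16]
            field_simp
        _ ≤ _ := by gcongr
    have h4 : κ ^ 16 ≤ κ ^ 5 := pow_le_pow_of_le_one hκ0.le hκ1 (by norm_num)
    have h5 : 0 ≤ Real.log H1 := Real.log_nonneg b1
    calc (1 + Real.log H1) / (K * y * (H1 * (H1 * (H3 * (H4 * H5))))) ≤ (1 + Real.log K) / (K * κ ^ 5) := by gcongr
      _ = ((1 + Real.log K) / K) / κ ^ 5 := by rw [div_div]
      _ ≤ _ := div_le_div_of_nonneg_left (by positivity) (by positivity) h4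
  have hfin : (‖bs (oct K) K i R c‖ / (K : ℝ) ^ 2) ^ 32 ≤ A * X := by
    refine hmain.trans ?_
    rw [hEd]
    have h1 : 1 / (H1 : ℝ) ^ 16 + (1 / (H1 : ℝ) ^ 16 + (1 / (H3 : ℝ) ^ 8 + (1 / (H4 : ℝ) ^ 4 + 1 / (H5 : ℝ) ^ 2))) +
        (1 + Real.log H1) / (K * y * (H1 * (H1 * (H3 * (H4 * H5))))) ≤ 5 * (X / κ ^ 16) := by
      have h2 : X / κ ^ 16 = y / κ ^ 16 + ((1 + Real.log K) / K) / κ ^ 16 := by
        rw [hX]
        ring
      have h3 : 0 ≤ ((1 + Real.log K) / K) / κ ^ 16 := by positivity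
      rw [h2]
      linarith
    calc C0 * _ ≤ C0 * (5 * (X / κ ^ 16)) := mul_le_mul_of_nonneg_left h1 (by linarith)
      _ = A * X := by
        rw [hA]
        ring
  have hres : ‖bs (oct K) K i R c‖ / (K : ℝ) ^ 2 ≤ A ^ (1 / 32 : ℝ) * Y := by
    refine (pow_le_pow_iff_left₀ (by positivity) (by positivity) (show (32 : ℕ) ≠ 0 by norm_num)).1 ?_
    rw [mul_pow, hA32, hY32]
    exact hfin
  rw [div_le_iff₀ (by positivity)] at hres
  have h5 : 0 ≤ 25 * (1 / κ) * ((K : ℝ) ^ 2 * Y) := by positivity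
  rw [add_mul]
  linarith

end Pool.Agent.Helper92.TD
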