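import Pool.Agent.Helper92.GC.G3

/-!
# Project TD (MP_fb29e9_nt): two-dimensional Weyl differencing

`vdc`: the van der Corput inequality for a sum over a finite set of lattice points and a finite set of shifts.
-/

set_option autoImplicit false

namespace Pool.Agent.Helper92.TD

open Finset
open Pool.Agent.Helper22.AE
open Pool.Agent.Helper92.GC
open scoped ComplexConjugate

/-- weighted exponential sum -/
noncomputable def S2 (Ω : Finset (ℤ × ℤ)) (a : ℤ × ℤ → ℂ) (f : ℤ × ℤ → ℝ) : ℂ := ∑ k ∈ Ω, a k * ee (f k)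

open Classical in
/-- the points of `Ω` whose translate by `w` lies in `Ω` -/
noncomputable def sh (Ω : Finset (ℤ × ℤ)) (w : ℤ × ℤ) : Finset (ℤ × ℤ) := Ω.filter (fun k => k + w ∈ Ω)

/-- the weight after one step -/
noncomputable def aw (a : ℤ × ℤ → ℂ) (w : ℤ × ℤ) (k : ℤ × ℤ) : ℂ := a (k + w) * conj (a k)

/-- the phase after one step -/
noncomputable def fw (f : ℤ × ℤ → ℝ) (w : ℤ × ℤ) (k : ℤ × ℤ) : ℝ := f (k + w) - f k

lemma conj_ee92 (x : ℝ) : conj (ee x) = ee (-x) := by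
  unfold ee
  rw [← Complex.exp_conj]
  congr 1
  rw [map_mul, Complex.conj_ofReal, Complex.conj_I]
  push_cast
  ring

lemma mem_sh {Ω : Finset (ℤ × ℤ)} {w k : ℤ × ℤ} : k ∈ sh Ω w ↔ k ∈ Ω ∧ k + w ∈ Ω := by
  unfold sh
  exact Finset.mem_filter

open Classical in
/-- the terms extended by zero -/
private noncomputable def g92 (Ω : Finset (ℤ × ℤ)) (a : ℤ × ℤ → ℂ) (f : ℤ × ℤ → ℝ) (k : ℤ × ℤ) : ℂ :=
  if k ∈ Ω then a k * ee (f k) else 0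

private lemma sum_g92 {Ω B : Finset (ℤ × ℤ)} (a : ℤ × ℤ → ℂ) (f : ℤ × ℤ → ℝ) {u : ℤ × ℤ} (hB : ∀ k ∈ Ω, k - u ∈ B) :
    ∑ m ∈ B, g92 Ω a f (m + u) = S2 Ω a f := by
  classical
  unfold g92 S2
  rw [← Finset.sum_filter]
  refine Finset.sum_nbij' (fun m => m + u) (fun k => k - u) ?_ ?_ ?_ ?_ ?_
  · intro m hm
    exact (Finset.mem_filter.1 hm).2
  · intro k hk
    refine Finset.mem_filter.2 ⟨hB k hk, ?_⟩
    simpa using hk
  · intro m _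
    simp
  · intro k _
    simp
  · intro m _
    rfl

private lemma corr92 {Ω B : Finset (ℤ × ℤ)} (a : ℤ × ℤ → ℂ) (f : ℤ × ℤ → ℝ) {u u' : ℤ × ℤ} (hB : ∀ k ∈ Ω, k - u' ∈ B) :
    ∑ m ∈ B, g92 Ω a f (m + u) * conj (g92 Ω a f (m + u')) = S2 (sh Ω (u - u')) (aw a (u - u')) (fw f (u - u')) := by
  classical
  have h1 : ∀ m ∈ B, g92 Ω a f (m + u) * conj (g92 Ω a f (m + u')) =
      if m + u' ∈ sh Ω (u - u') then aw a (u - u') (m + u') * ee (fw f (u - u') (m + u')) else 0 := by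
    intro m _
    have e1 : m + u' + (u - u') = m + u := by abel
    unfold g92
    by_cases h1 : m + u ∈ Ω
    · by_cases h2 : m + u' ∈ Ω
      · rw [if_pos h1, if_pos h2, if_pos (mem_sh.2 ⟨h2, by rw [e1]; exact h1⟩)]
        unfold aw fw
        rw [e1, map_mul, conj_ee92, sub_eq_add_neg, ee_add]
        ring
      · rw [if_pos h1, if_neg h2, if_neg (fun h => h2 (mem_sh.1 h).1)]
        simp
    · have h3 : ¬ (m + u' ∈ sh Ω (u - u')) := fun h => h1 (by have := (mem_sh.1 h).2; rwa [e1] at this)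
      rw [if_neg h1, if_neg h3]
      simp
  rw [Finset.sum_congr rfl h1, ← Finset.sum_filter]
  unfold S2
  refine Finset.sum_nbij' (fun m => m + u') (fun k => k - u') ?_ ?_ ?_ ?_ ?_
  · intro m hm
    exact (Finset.mem_filter.1 hm).2
  · intro k hk
    refine Finset.mem_filter.2 ⟨hB k (mem_sh.1 hk).1, ?_⟩
    simpa using hk
  · intro m _
    simp
  · intro k _
    simp
  · intro m _
    rfl

/-- **the van der Corput inequality for lattice points** -/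
theorem vdc {Ω U D B : Finset (ℤ × ℤ)} (a : ℤ × ℤ → ℂ) (f : ℤ × ℤ → ℝ) (hD : ∀ u ∈ U, ∀ u' ∈ U, u - u' ∈ D)
    (hB : ∀ k ∈ Ω, ∀ u ∈ U, k - u ∈ B) :
    (U.card : ℝ) * ‖S2 Ω a f‖ ^ 2 ≤ B.card * ∑ w ∈ D, ‖S2 (sh Ω w) (aw a w) (fw f w)‖ := by
  classical
  rcases U.eq_empty_or_nonempty with rfl | hU
  · simp only [Finset.card_empty, Nat.cast_zero, zero_mul]
    positivity
  have hUc : (0 : ℝ) < U.card := by exact_mod_cast hU.card_pos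
  set S : ℂ := S2 Ω a f with hS
  set G : ℤ × ℤ → ℂ := fun m => ∑ u ∈ U, g92 Ω a f (m + u) with hG
  have h1 : ∑ m ∈ B, G m = U.card * S := by
    rw [hG, Finset.sum_comm, Finset.sum_congr rfl (fun u hu => sum_g92 a f (fun k hk => hB k hk u hu)), Finset.sum_const,
      nsmul_eq_mul]
  have h2 : ((U.card : ℝ) * ‖S‖) ^ 2 ≤ B.card * ∑ m ∈ B, ‖G m‖ ^ 2 := by
    have h3 : (U.card : ℝ) * ‖S‖ ≤ ∑ m ∈ B, ‖G m‖ := by
      have h4 : (U.card : ℝ) * ‖S‖ = ‖∑ m ∈ B, G m‖ := by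
        rw [h1, norm_mul, Complex.norm_natCast]
      rw [h4]
      exact norm_sum_le _ _
    calc ((U.card : ℝ) * ‖S‖) ^ 2 ≤ (∑ m ∈ B, ‖G m‖) ^ 2 := by gcongr
      _ ≤ B.card * ∑ m ∈ B, ‖G m‖ ^ 2 := sq_sum_le_card_mul_sum_sq
  have h5 : ∑ m ∈ B, ‖G m‖ ^ 2 ≤ ∑ u ∈ U, ∑ u' ∈ U, ‖S2 (sh Ω (u - u')) (aw a (u - u')) (fw f (u - u'))‖ := by
    have h6 : ((∑ m ∈ B, ‖G m‖ ^ 2 : ℝ) : ℂ) = ∑ u ∈ U, ∑ u' ∈ U, S2 (sh Ω (u - u')) (aw a (u - u')) (fw f (u - u')) := by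
      push_cast
      have h7 : ∀ m ∈ B, ((‖G m‖ : ℂ)) ^ 2 = ∑ u ∈ U, ∑ u' ∈ U, g92 Ω a f (m + u) * conj (g92 Ω a f (m + u')) := by
        intro m _
        rw [← Complex.mul_conj', hG]
        simp only
        rw [map_sum, Finset.sum_mul_sum]
      rw [Finset.sum_congr rfl h7, Finset.sum_comm]
      refine Finset.sum_congr rfl fun u _ => ?_
      rw [Finset.sum_comm]
      refine Finset.sum_congr rfl fun u' hu' => ?_
      exact corr92 a f (fun k hk => hB k hk u' hu')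
    have h8 : (∑ m ∈ B, ‖G m‖ ^ 2 : ℝ) = ‖((∑ m ∈ B, ‖G m‖ ^ 2 : ℝ) : ℂ)‖ := by
      rw [Complex.norm_real, Real.norm_of_nonneg (by positivity)]
    rw [h8, h6]
    refine (norm_sum_le _ _).trans (Finset.sum_le_sum fun u _ => norm_sum_le _ _)
  have h9 : ∑ u ∈ U, ∑ u' ∈ U, ‖S2 (sh Ω (u - u')) (aw a (u - u')) (fw f (u - u'))‖ ≤
      U.card * ∑ w ∈ D, ‖S2 (sh Ω w) (aw a w) (fw f w)‖ := by
    rw [← nsmul_eq_mul, ← Finset.sum_const]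
    refine Finset.sum_le_sum fun u hu => ?_
    rw [← Finset.sum_image (f := fun w => ‖S2 (sh Ω w) (aw a w) (fw f w)‖) (g := fun u' => u - u') (s := U)
      (fun x _ y _ h => sub_right_injective h)]
    refine Finset.sum_le_sum_of_subset_of_nonneg ?_ (fun _ _ _ => norm_nonneg _)
    intro w hw
    obtain ⟨u', hu', rfl⟩ := Finset.mem_image.1 hw
    exact hD u hu u' hu'
  have h10 : (U.card : ℝ) * ((U.card : ℝ) * ‖S‖ ^ 2) ≤ U.card * (B.card * ∑ w ∈ D, ‖S2 (sh Ω w) (aw a w) (fw f w)‖) := by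
    calc (U.card : ℝ) * ((U.card : ℝ) * ‖S‖ ^ 2) = ((U.card : ℝ) * ‖S‖) ^ 2 := by ring
      _ ≤ B.card * ∑ m ∈ B, ‖G m‖ ^ 2 := h2
      _ ≤ B.card * (U.card * ∑ w ∈ D, ‖S2 (sh Ω w) (aw a w) (fw f w)‖) := by
        gcongr
        exact h5.trans h9
      _ = _ := by ring
  exact le_of_mul_le_mul_left h10 hUc

/-- trivial bound -/
lemma S2_le_card {Ω : Finset (ℤ × ℤ)} {a : ℤ × ℤ → ℂ} (f : ℤ × ℤ → ℝ) (ha : ∀ k ∈ Ω, ‖a k‖ ≤ 1) : ‖S2 Ω a f‖ ≤ Ω.card := by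
  unfold S2
  refine (norm_sum_le _ _).trans ?_
  refine (Finset.sum_le_card_nsmul _ _ 1 fun k hk => ?_).trans ?_
  · rw [norm_mul, ee_norm, mul_one]
    exact ha k hk
  · rw [nsmul_eq_mul, mul_one]

/-- admissible data: the octant region, convex rows and columns, a weight of small variation -/
structure Adm (K V : ℝ) (Ω : Finset (ℤ × ℤ)) (a : ℤ × ℤ → ℂ) : Prop where
  reg : ∀ k ∈ Ω, K ≤ (k.1 : ℝ) ∧ (k.1 : ℝ) ≤ 2 * K ∧ 0 ≤ (k.2 : ℝ) ∧ (k.2 : ℝ) ≤ k.1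
  row : ∀ x x' z y : ℤ, (x, y) ∈ Ω → (x', y) ∈ Ω → x ≤ z → z ≤ x' → (z, y) ∈ Ω
  col : ∀ x y y' z : ℤ, (x, y) ∈ Ω → (x, y') ∈ Ω → y ≤ z → z ≤ y' → (x, z) ∈ Ω
  one : ∀ k ∈ Ω, ‖a k‖ ≤ 1
  v1 : ∀ k ∈ Ω, k + (1, 0) ∈ Ω → ‖a (k + (1, 0)) - a k‖ ≤ V
  v2 : ∀ k ∈ Ω, k + (0, 1) ∈ Ω → ‖a (k + (0, 1)) - a k‖ ≤ V

private lemma two_weights92 {x x' y y' : ℂ} {V : ℝ} (h1 : ‖x' - x‖ ≤ V) (h2 : ‖y' - y‖ ≤ V) (h3 : ‖x‖ ≤ 1) (h4 : ‖y'‖ ≤ 1) :
    ‖x' * conj y' - x * conj y‖ ≤ 2 * V := by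
  have e : x' * conj y' - x * conj y = (x' - x) * conj y' + x * conj (y' - y) := by
    rw [map_sub]
    ring
  rw [e]
  refine (norm_add_le _ _).trans ?_
  rw [norm_mul, norm_mul, RCLike.norm_conj, RCLike.norm_conj]
  have hV : 0 ≤ V := (norm_nonneg _).trans h1
  have a1 : ‖x' - x‖ * ‖y'‖ ≤ V * 1 := mul_le_mul h1 h4 (norm_nonneg _) hV
  have a2 : ‖x‖ * ‖y' - y‖ ≤ 1 * V := mul_le_mul h3 h2 (norm_nonneg _) zero_le_one
  linarith

theorem Adm.sh {K V : ℝ} {Ω : Finset (ℤ × ℤ)} {a : ℤ × ℤ → ℂ} (h : Adm K V Ω a) (w : ℤ × ℤ) :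
    Adm K (2 * V) (sh Ω w) (aw a w) := by
  have e1 : ∀ k : ℤ × ℤ, k + (1, 0) + w = k + w + (1, 0) := fun k => by abel
  have e2 : ∀ k : ℤ × ℤ, k + (0, 1) + w = k + w + (0, 1) := fun k => by abel
  refine ⟨fun k hk => h.reg k (mem_sh.1 hk).1, ?_, ?_, ?_, ?_, ?_⟩
  · intro x x' z y h1 h2 h3 h4
    rw [mem_sh] at h1 h2 ⊢
    refine ⟨h.row x x' z y h1.1 h2.1 h3 h4, ?_⟩
    obtain ⟨w1, w2⟩ := w
    exact h.row (x + w1) (x' + w1) (z + w1) (y + w2) h1.2 h2.2 (by linarith) (by linarith)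
  · intro x y y' z h1 h2 h3 h4
    rw [mem_sh] at h1 h2 ⊢
    refine ⟨h.col x y y' z h1.1 h2.1 h3 h4, ?_⟩
    obtain ⟨w1, w2⟩ := w
    exact h.col (x + w1) (y + w2) (y' + w2) (z + w2) h1.2 h2.2 (by linarith) (by linarith)
  · intro k hk
    rw [mem_sh] at hk
    unfold aw
    rw [norm_mul, RCLike.norm_conj]
    exact mul_le_one₀ (h.one _ hk.2) (norm_nonneg _) (h.one _ hk.1)
  · intro k hk hk1
    rw [mem_sh] at hk hk1
    rw [e1] at hk1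
    unfold aw
    rw [e1]
    exact two_weights92 (h.v1 _ hk.2 hk1.2) (h.v1 _ hk.1 hk1.1) (h.one _ hk.2) (h.one _ hk1.1)
  · intro k hk hk1
    rw [mem_sh] at hk hk1
    rw [e2] at hk1
    unfold aw
    rw [e2]
    exact two_weights92 (h.v2 _ hk.2 hk1.2) (h.v2 _ hk.1 hk1.1) (h.one _ hk.2) (h.one _ hk1.1)

end Pool.Agent.Helper92.TD
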